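import Mathlib

set_option autoImplicit false

namespace Pool.Agent.H730Z.NSDefs

open scoped ContDiff

/-- The partial derivative `∂f/∂x_j` of a real function on `ℝ³`. -/
noncomputable def pd (j : Fin 3) (f : (Fin 3 → ℝ) → ℝ) (x : Fin 3 → ℝ) : ℝ :=
  fderiv ℝ f x (Pi.single j 1)

/-- The `i`-th component of the Fourier coefficient `û(k) = ∫_{[0,1]³} e^{-2πi k·x} u(x) dx`. -/
noncomputable def coeff (u : (Fin 3 → ℝ) → Fin 3 → ℝ) (k : Fin 3 → ℤ) (i : Fin 3) : ℂ :=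
  ∫ x in Set.Icc (0 : Fin 3 → ℝ) 1,
    Complex.exp (-(2 * Real.pi * Complex.I * ∑ j, (k j : ℂ) * (x j : ℂ))) * (u x i : ℂ)

/-- The Lei-Lin norm `∑_{k ≠ 0} |û(k)| / (2π|k|)`, with Euclidean norms on `ℂ³` and `ℤ³`. -/
noncomputable def leiLin (u : (Fin 3 → ℝ) → Fin 3 → ℝ) : ℝ :=
  ∑' k : {k : Fin 3 → ℤ // k ≠ 0},
    Real.sqrt (∑ i, ‖coeff u k i‖ ^ 2) / (2 * Real.pi * Real.sqrt (∑ j, ((k.1 j : ℝ)) ^ 2))

/-- `(u, p)` is an admissible periodic solution of the unforced Navier-Stokes system with viscosity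
`ν` and initial field `u0`: both are smooth on `ℝ³ × [0, ∞)`, `ℤ³`-periodic in space, and satisfy
the equations at every point with `t ≥ 0` (one-sided time derivative at `t = 0`). -/
structure IsAdmissible (ν : ℝ) (u0 : (Fin 3 → ℝ) → Fin 3 → ℝ)
    (u : (Fin 3 → ℝ) × ℝ → Fin 3 → ℝ) (p : (Fin 3 → ℝ) × ℝ → ℝ) : Prop where
  smooth_u : ContDiffOn ℝ ∞ u (Set.univ ×ˢ Set.Ici 0)
  smooth_p : ContDiffOn ℝ ∞ p (Set.univ ×ˢ Set.Ici 0)
  periodic_u : ∀ x t j, 0 ≤ t → u (x + Pi.single j 1, t) = u (x, t)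
  periodic_p : ∀ x t j, 0 ≤ t → p (x + Pi.single j 1, t) = p (x, t)
  init : ∀ x, u (x, 0) = u0 x
  div_free : ∀ x t, 0 ≤ t → ∑ i, pd i (fun y => u (y, t) i) x = 0
  momentum : ∀ x t i, 0 ≤ t →
    derivWithin (fun s => u (x, s) i) (Set.Ici 0) t +
        ∑ j, u (x, t) j * pd j (fun y => u (y, t) i) x =
      ν * ∑ j, pd j (pd j (fun y => u (y, t) i)) x - pd i (fun y => p (y, t)) x

end Pool.Agent.H730Z.NSDefs
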