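import Pool.Agent.H730Z.NS.Tree

set_option autoImplicit false

namespace Pool.Agent.H730Z.NS

open Finset Complex

lemma prim_deriv {g : ℝ → ℝ} (hg : Continuous g) (t : ℝ) :
    HasDerivAt (fun t => ∫ s in (0 : ℝ)..t, g s) (g t) t :=
  intervalIntegral.integral_hasDerivAt_right (hg.intervalIntegrable _ _)
    (hg.stronglyMeasurableAtFilter _ _) hg.continuousAt

lemma bootstrap {X Y : ℝ → ℝ} {ν c X0 : ℝ} (hX : Continuous X) (hY : Continuous Y)
    (hY0 : ∀ t, 0 ≤ Y t) (hX0 : ∀ t, 0 ≤ X t) (hc : 0 < c) (hs : c * X0 < ν)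
    (h : ∀ t, 0 ≤ t → X t + ν * ∫ s in (0 : ℝ)..t, Y s ≤ X0 + ∫ s in (0 : ℝ)..t, c * (X s * Y s))
    {t : ℝ} (ht : 0 ≤ t) : X t ≤ X0 ∧ (ν - c * X0) * ∫ s in (0 : ℝ)..t, Y s ≤ X0 := by
  have step : ∀ (B : ℝ) (t : ℝ), 0 ≤ t → (∀ s ∈ Set.Ioo 0 t, X s ≤ B) →
      X t + (ν - c * B) * ∫ s in (0 : ℝ)..t, Y s ≤ X0 := by
    intro B t ht hB
    have h1 : ∫ s in (0 : ℝ)..t, c * (X s * Y s) ≤ ∫ s in (0 : ℝ)..t, (c * B) * Y s := by
      apply intervalIntegral.integral_mono_on_of_le_Ioo ht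
        (((hX.mul hY).const_mul c).intervalIntegrable _ _)
        ((hY.const_mul _).intervalIntegrable _ _)
      intro s hs
      have := mul_le_mul_of_nonneg_right (hB s hs) (hY0 s)
      have := mul_le_mul_of_nonneg_left this hc.le
      simp only [Pi.mul_apply]
      linarith
    rw [intervalIntegral.integral_const_mul (c * B)] at h1
    have := h t ht
    linarith
  have hlt : ∀ t, 0 ≤ t → X t < ν / c := by
    by_contra hcon
    push Not at hcon
    let S : Set ℝ := {t | 0 ≤ t ∧ ν / c ≤ X t}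
    have hS : IsClosed S := (isClosed_le continuous_const continuous_id).inter
      (isClosed_le continuous_const hX)
    have hne : S.Nonempty := hcon
    have hbd : BddBelow S := ⟨0, fun t ht => ht.1⟩
    have hm := hS.csInf_mem hne hbd
    have := step (ν / c) (sInf S) hm.1 (by
      intro s hs
      by_contra hlt
      push Not at hlt
      have : sInf S ≤ s := csInf_le hbd ⟨hs.1.le, hlt.le⟩
      exact absurd hs.2 (not_lt.2 this))
    rw [mul_div_cancel₀ _ hc.ne', sub_self, zero_mul, add_zero] at this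
    have h2 : X0 < ν / c := by rw [lt_div_iff₀ hc]; linarith
    exact absurd (hm.2.trans this) (not_le.2 h2)
  have hle : ∀ t, 0 ≤ t → X t ≤ X0 := by
    intro t ht
    have := step (ν / c) t ht (fun s hs => (hlt s hs.1.le).le)
    rwa [mul_div_cancel₀ _ hc.ne', sub_self, zero_mul, add_zero] at this
  refine ⟨hle t ht, ?_⟩
  have := step X0 t ht (fun s hs => hle s hs.1.le)
  linarith [hX0 t]

lemma gronwall {φ g : ℝ → ℝ} {a : ℝ} (hφ : Continuous φ) (hg : Continuous g) (hg0 : ∀ t, 0 ≤ g t)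
    (h : ∀ t, 0 ≤ t → φ t ≤ a + ∫ s in (0 : ℝ)..t, g s * φ s) {t : ℝ} (ht : 0 ≤ t) :
    φ t ≤ a * Real.exp (∫ s in (0 : ℝ)..t, g s) := by
  let K : ℝ → ℝ := fun t => (a + ∫ s in (0 : ℝ)..t, g s * φ s) * Real.exp (-∫ s in (0 : ℝ)..t, g s)
  have hK : ∀ t, HasDerivAt K (g t * (φ t - (a + ∫ s in (0 : ℝ)..t, g s * φ s)) *
      Real.exp (-∫ s in (0 : ℝ)..t, g s)) t := by
    intro t
    have h1 := (prim_deriv (hg.mul hφ) t).const_add a
    have h2 := (prim_deriv hg t).neg.exp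
    refine (h1.mul h2).congr_deriv ?_
    simp only [Pi.mul_apply, Pi.neg_apply]
    ring
  have hanti : AntitoneOn K (Set.Ici 0) := by
    apply antitoneOn_of_deriv_nonpos (convex_Ici 0)
    · exact (continuous_iff_continuousAt.2 (fun t => (hK t).continuousAt)).continuousOn
    · exact fun t _ => (hK t).differentiableAt.differentiableWithinAt
    · intro t ht
      rw [interior_Ici] at ht
      rw [(hK t).deriv]
      have := h t (le_of_lt ht)
      exact mul_nonpos_of_nonpos_of_nonneg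
        (mul_nonpos_of_nonneg_of_nonpos (hg0 t) (by linarith)) (Real.exp_pos _).le
  have h1 : K t ≤ K 0 := hanti (le_refl (0 : ℝ)) ht ht
  have h2 : K 0 = a := by simp [K]
  rw [h2] at h1
  have h3 := mul_le_mul_of_nonneg_right h1 (Real.exp_pos (∫ s in (0 : ℝ)..t, g s)).le
  simp only [K] at h3
  rw [mul_assoc, ← Real.exp_add, neg_add_cancel, Real.exp_zero, mul_one] at h3
  exact (h t ht).trans h3

lemma nr_eq (l : R3) : nr l = ‖ofR l‖ := by
  have : nr l ^ 2 = ‖ofR l‖ ^ 2 := by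
    rw [nr_sq, norm_sq_V]; simp [ofR, sq3]
  exact (pow_left_inj₀ (nr_nonneg _) (norm_nonneg _) two_ne_zero).1 this

lemma nr_add_le (l m : R3) : nr (l + m) ≤ nr l + nr m := by
  have : ofR (l + m) = ofR l + ofR m := by ext i; simp [ofR]
  rw [nr_eq, nr_eq, nr_eq, this]
  exact norm_add_le _ _

lemma nr_neg (l : R3) : nr (-l) = nr l := by simp [nr, sq3]

/-- size of the frequency -/
noncomputable def rr (p : M) : ℝ := nr (xi p)

lemma rr_nonneg (p : M) : 0 ≤ rr p := nr_nonneg _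
lemma rr_add_le (p q : M) : rr (p + q) ≤ rr p + rr q := by
  unfold rr; rw [xi_add]; exact nr_add_le _ _
lemma rr_swap (p : M) : rr p.swap = rr p := by unfold rr; rw [xi_swap, nr_neg]
lemma xi_eq_zero {p : M} (h : rr p = 0) : xi p = 0 := by
  apply sq3_eq_zero; rw [← nr_sq]; unfold rr at h; rw [h]; simp

/-- standing hypotheses -/
structure Data (ν : ℝ) (lam : M → ℂ) (d : M → V) : Prop where
  pos : 0 < ν
  re : ∀ p, (lam p).re = ν * sq3 (xi p)
  lconj : ∀ p, lam p.swap = (starRingEnd ℂ) (lam p)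
  mean : ∀ p, xi p = 0 → d p = 0
  div : ∀ p, dotc (d p) (xi p) = 0
  real : ∀ p, d p.swap = cj (d p)

variable {ν : ℝ} {lam : M → ℂ} {d : M → V}

lemma Data.h0 (H : Data ν lam d) : d 0 = 0 := H.mean 0 xi_zero

lemma sum_anti_le (N : M) (f : M × M → ℝ) (hf : ∀ q, 0 ≤ f q) :
    ∑ p ∈ box N, ∑ q ∈ anti p, f q ≤ ∑ q ∈ box N ×ˢ box N, f q := by
  have : ∀ p ∈ box N, anti p = (box N ×ˢ box N).filter (fun q => q.1 + q.2 = p) := by
    intro p hp
    ext q
    simp only [mem_anti, mem_filter, mem_product, mem_box, iff_and_self] at hp ⊢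
    rintro rfl
    exact ⟨le_self_add.trans hp, le_add_self.trans hp⟩
  rw [sum_congr rfl (fun p hp => by rw [this p hp])]
  exact sum_fiberwise_le_sum_of_sum_fiber_nonneg (fun _ _ => sum_nonneg (fun q _ => hf q))

lemma sum_box_swap (N : Fin 3 → ℕ) (f : M → ℝ) :
    ∑ p ∈ box (N, N), f p.swap = ∑ p ∈ box (N, N), f p := by
  refine sum_bij' (fun q _ => q.swap) (fun q _ => q.swap) ?_ ?_ ?_ ?_ ?_
  · intro q hq; rw [mem_box] at hq ⊢; exact ⟨hq.2, hq.1⟩
  · intro q hq; rw [mem_box] at hq ⊢; exact ⟨hq.2, hq.1⟩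
  · intro q _; rfl
  · intro q _; rfl
  · intro q _; rfl

/-- truncated norms -/
noncomputable def XX (lam : M → ℂ) (d : M → V) (N : Fin 3 → ℕ) (t : ℝ) : ℝ :=
  ∑ p ∈ box (N, N), (rr p)⁻¹ * ‖uu lam d p t‖

noncomputable def ZZ (lam : M → ℂ) (d : M → V) (N : Fin 3 → ℕ) (s : ℕ) (t : ℝ) : ℝ :=
  ∑ p ∈ box (N, N), rr p ^ s * ‖uu lam d p t‖

lemma XX_nonneg (N : Fin 3 → ℕ) (t : ℝ) : 0 ≤ XX lam d N t :=
  sum_nonneg (fun p _ => by have := rr_nonneg p; positivity)
lemma ZZ_nonneg (N : Fin 3 → ℕ) (s : ℕ) (t : ℝ) : 0 ≤ ZZ lam d N s t :=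
  sum_nonneg (fun p _ => by have := rr_nonneg p; positivity)
lemma XX_cont (H : Data ν lam d) (N : Fin 3 → ℕ) : Continuous (XX lam d N) :=
  continuous_finsetSum _ (fun p _ => (uu_cont H.h0 p).norm.const_mul _)
lemma ZZ_cont (H : Data ν lam d) (N : Fin 3 → ℕ) (s : ℕ) : Continuous (ZZ lam d N s) :=
  continuous_finsetSum _ (fun p _ => (uu_cont H.h0 p).norm.const_mul _)

lemma nl_low (H : Data ν lam d) (N : Fin 3 → ℕ) (t : ℝ) :
    ∑ p ∈ box (N, N), (rr p)⁻¹ * ‖FF lam d p t‖ ≤ kap / 2 * (XX lam d N t * ZZ lam d N 1 t) := by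
  let n : M × M → ℝ := fun q =>
    ‖bil (xi q.1) (xi q.2) (uu lam d q.1 t) (uu lam d q.2 t)‖ / nr (xi q.1 + xi q.2)
  have hn : ∀ q, 0 ≤ n q := fun q => div_nonneg (norm_nonneg _) (nr_nonneg _)
  have h1 : ∀ p ∈ box (N, N), (rr p)⁻¹ * ‖FF lam d p t‖ ≤ ∑ q ∈ anti p, n q := by
    intro p _
    refine (mul_le_mul_of_nonneg_left (norm_sum_le _ _) (inv_nonneg.2 (rr_nonneg p))).trans
      (le_of_eq ?_)
    rw [mul_sum]
    refine sum_congr rfl (fun q hq => ?_)
    rw [mem_anti] at hq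
    simp only [n]
    rw [← xi_add, hq, rr, div_eq_inv_mul]
  have h2 := (sum_le_sum h1).trans (sum_anti_le (N, N) n hn)
  have h3 : ∑ q ∈ box (N, N) ×ˢ box (N, N), n (q.1, q.2.swap) =
      ∑ q ∈ box (N, N) ×ˢ box (N, N), n q := by
    rw [sum_product, sum_product]
    exact sum_congr rfl (fun p _ => sum_box_swap N (fun p' => n (p, p')))
  have h4 : ∀ q : M × M, n q + n (q.1, q.2.swap) ≤ kap / 2 *
      ((rr q.1 ^ 1 * ‖uu lam d q.1 t‖) * ((rr q.2)⁻¹ * ‖uu lam d q.2 t‖) +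
        ((rr q.1)⁻¹ * ‖uu lam d q.1 t‖) * (rr q.2 ^ 1 * ‖uu lam d q.2 t‖)) := by
    intro q
    simp only [n, xi_swap, uu_real H.h0 H.lconj H.real]
    by_cases a1 : rr q.1 = 0
    · simp [uu_mean H.mean H.div q.1 (xi_eq_zero a1), bil_zero_left]
    by_cases a2 : rr q.2 = 0
    · have : cj 0 = 0 := by ext j; simp [cj]
      simp [uu_mean H.mean H.div q.2 (xi_eq_zero a2), bil_zero_right, this]
    have := key (xi q.1) (xi q.2) _ _ (uu_div (lam := lam) H.h0 H.div q.1 t)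
      (uu_div (lam := lam) H.h0 H.div q.2 t) (lt_of_le_of_ne (rr_nonneg _) (Ne.symm a1))
      (lt_of_le_of_ne (rr_nonneg _) (Ne.symm a2))
    rw [norm_bil, norm_bil]
    simp only [rr, pow_one, div_eq_mul_inv] at this ⊢
    linarith
  have h5 := sum_le_sum (s := box (N, N) ×ˢ box (N, N)) (fun q _ => h4 q)
  have pr : ∀ f g : M → ℝ, ∑ q ∈ box (N, N) ×ˢ box (N, N), f q.1 * g q.2 =
      (∑ p ∈ box (N, N), f p) * ∑ p ∈ box (N, N), g p := by
    intro f g; rw [sum_mul_sum, sum_product]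
  rw [sum_add_distrib, h3, ← mul_sum, sum_add_distrib,
    pr (fun p => rr p ^ 1 * ‖uu lam d p t‖) (fun p => (rr p)⁻¹ * ‖uu lam d p t‖),
    pr (fun p => (rr p)⁻¹ * ‖uu lam d p t‖) (fun p => rr p ^ 1 * ‖uu lam d p t‖)] at h5
  unfold XX ZZ
  linarith

lemma nl_high (H : Data ν lam d) (N : Fin 3 → ℕ) (s : ℕ) (t : ℝ) :
    ∑ p ∈ box (N, N), rr p ^ s * ‖FF lam d p t‖ ≤
      2 ^ (s + 1) * (ZZ lam d N 0 t * ZZ lam d N (s + 1) t) := by
  let n : M × M → ℝ := fun q => 2 ^ s *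
    ((rr q.1 ^ (s + 1) * ‖uu lam d q.1 t‖) * (rr q.2 ^ 0 * ‖uu lam d q.2 t‖) +
      (rr q.1 ^ 0 * ‖uu lam d q.1 t‖) * (rr q.2 ^ (s + 1) * ‖uu lam d q.2 t‖))
  have hn : ∀ q, 0 ≤ n q := fun q => by
    have := rr_nonneg q.1; have := rr_nonneg q.2; positivity
  have h1 : ∀ p ∈ box (N, N), rr p ^ s * ‖FF lam d p t‖ ≤ ∑ q ∈ anti p, n q := by
    intro p _
    have hp := rr_nonneg p
    refine (mul_le_mul_of_nonneg_left (norm_sum_le _ _) (by positivity)).trans ?_
    rw [mul_sum]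
    refine sum_le_sum (fun q hq => ?_)
    rw [mem_anti] at hq
    have b := norm_bil_le (xi q.1) (xi q.2) _ _ (uu_div (lam := lam) H.h0 H.div q.1 t)
      (uu_div (lam := lam) H.h0 H.div q.2 t)
    rw [← xi_add, hq] at b
    have c : rr p ^ (s + 1) ≤ 2 ^ s * (rr q.1 ^ (s + 1) + rr q.2 ^ (s + 1)) := by
      have := rr_add_le q.1 q.2
      rw [hq] at this
      exact (pow_le_pow_left₀ hp this _).trans (add_pow_le (rr_nonneg _) (rr_nonneg _) (s + 1))
    calc _ ≤ rr p ^ s * (rr p * (‖uu lam d q.1 t‖ * ‖uu lam d q.2 t‖)) :=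
          mul_le_mul_of_nonneg_left b (by positivity)
      _ = rr p ^ (s + 1) * (‖uu lam d q.1 t‖ * ‖uu lam d q.2 t‖) := by ring
      _ ≤ 2 ^ s * (rr q.1 ^ (s + 1) + rr q.2 ^ (s + 1)) * (‖uu lam d q.1 t‖ * ‖uu lam d q.2 t‖) :=
          mul_le_mul_of_nonneg_right c (by positivity)
      _ = n q := by simp only [n]; ring
  refine ((sum_le_sum h1).trans (sum_anti_le (N, N) n hn)).trans (le_of_eq ?_)
  simp only [n]
  rw [← mul_sum, sum_add_distrib, sum_product, sum_product]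
  simp only
  rw [← sum_mul_sum, ← sum_mul_sum]
  unfold ZZ
  ring

lemma weighted (H : Data ν lam d) (D : Finset M) (w : M → ℝ) (hw : ∀ p, 0 ≤ w p) {t : ℝ}
    (ht : 0 ≤ t) :
    ∑ p ∈ D, w p * ‖uu lam d p t‖ +
      ν * ∫ s in (0 : ℝ)..t, ∑ p ∈ D, (w p * rr p ^ 2) * ‖uu lam d p s‖ ≤
      ∑ p ∈ D, w p * ‖d p‖ + ∫ s in (0 : ℝ)..t, ∑ p ∈ D, w p * ‖FF lam d p s‖ := by
  rw [intervalIntegral.integral_finsetSum
      (fun p _ => ((uu_cont H.h0 p).norm.const_mul _).intervalIntegrable _ _),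
    intervalIntegral.integral_finsetSum
      (fun p _ => ((FF_cont H.h0 p).norm.const_mul _).intervalIntegrable _ _),
    mul_sum, ← sum_add_distrib, ← sum_add_distrib]
  refine sum_le_sum (fun p _ => ?_)
  have hre : 0 ≤ (lam p).re := by rw [H.re]; exact mul_nonneg H.pos.le (sq3_nonneg _)
  have := mul_le_mul_of_nonneg_left (uu_est H.h0 p hre ht) (hw p)
  rw [intervalIntegral.integral_const_mul, intervalIntegral.integral_const_mul, rr, nr_sq]
  rw [H.re] at this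
  linarith

lemma low_bound (H : Data ν lam d) {X0 : ℝ} (hX0 : ∀ D : Finset M, ∑ p ∈ D, (rr p)⁻¹ * ‖d p‖ ≤ X0)
    (hs : kap / 2 * X0 < ν) (N : Fin 3 → ℕ) {t : ℝ} (ht : 0 ≤ t) :
    XX lam d N t ≤ X0 ∧ (ν - kap / 2 * X0) * ∫ s in (0 : ℝ)..t, ZZ lam d N 1 s ≤ X0 := by
  refine bootstrap (XX_cont H N) (ZZ_cont H N 1) (ZZ_nonneg N 1) (XX_nonneg N)
    (half_pos kap_pos) hs (fun t ht => ?_) ht
  have h1 := weighted H (box (N, N)) (fun p => (rr p)⁻¹) (fun p => inv_nonneg.2 (rr_nonneg p)) ht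
  have e : ∀ p, (rr p)⁻¹ * rr p ^ 2 = rr p ^ 1 := by
    intro p
    by_cases h : rr p = 0
    · simp [h]
    · field_simp
  simp only [e] at h1
  have h2 : ∫ s in (0 : ℝ)..t, ∑ p ∈ box (N, N), (rr p)⁻¹ * ‖FF lam d p s‖ ≤
      ∫ s in (0 : ℝ)..t, kap / 2 * (XX lam d N s * ZZ lam d N 1 s) :=
    intervalIntegral.integral_mono_on ht
      ((continuous_finsetSum _ (fun p _ => (FF_cont H.h0 p).norm.const_mul _)).intervalIntegrable _ _)
      ((((XX_cont H N).mul (ZZ_cont H N 1)).const_mul _).intervalIntegrable _ _)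
      (fun s _ => nl_low H N s)
  have h3 := hX0 (box (N, N))
  unfold XX ZZ at *
  linarith

lemma ZZ_zero_sq (H : Data ν lam d) (N : Fin 3 → ℕ) (t : ℝ) :
    ZZ lam d N 0 t ^ 2 ≤ XX lam d N t * ZZ lam d N 1 t := by
  unfold ZZ XX
  apply sum_sq_le_sum_mul_sum_of_sq_le_mul
  · intro p _; have := rr_nonneg p; positivity
  · intro p _; have := rr_nonneg p; positivity
  · intro p _
    by_cases h : rr p = 0
    · simp [uu_mean H.mean H.div p (xi_eq_zero h)]
    · apply le_of_eq; field_simp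

lemma high_bound (H : Data ν lam d) {X0 : ℝ}
    (hX0 : ∀ D : Finset M, ∑ p ∈ D, (rr p)⁻¹ * ‖d p‖ ≤ X0) (hs : kap / 2 * X0 < ν)
    (hd : ∀ s : ℕ, Summable (fun p => rr p ^ s * ‖d p‖)) (s : ℕ) :
    ∃ B : ℝ, ∀ N t, 0 ≤ t → ZZ lam d N s t ≤ B := by
  have hν := H.pos
  have hX00 : 0 ≤ X0 := by simpa using hX0 ∅
  have hgap : 0 < ν - kap / 2 * X0 := by linarith
  let C : ℝ := (2 ^ (s + 1)) ^ 2 / (4 * ν)
  have hC : 0 ≤ C := by positivity
  let A : ℝ := ∑' p, rr p ^ s * ‖d p‖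
  have hA : 0 ≤ A := tsum_nonneg (fun p => by have := rr_nonneg p; positivity)
  refine ⟨A * Real.exp (C * (X0 * (X0 / (ν - kap / 2 * X0)))), fun N t ht => ?_⟩
  have g1 := gronwall (φ := ZZ lam d N s) (g := fun t => C * ZZ lam d N 0 t ^ 2) (a := A)
    (ZZ_cont H N s) (((ZZ_cont H N 0).pow 2).const_mul C) (fun t => by positivity) (by
      intro t ht
      have h1 := weighted H (box (N, N)) (fun p => rr p ^ s)
        (fun p => by have := rr_nonneg p; positivity) ht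
      simp only [← pow_add] at h1
      have h2 : ∫ x in (0 : ℝ)..t, ∑ p ∈ box (N, N), rr p ^ s * ‖FF lam d p x‖ ≤
          ∫ x in (0 : ℝ)..t, (ν * ZZ lam d N (s + 2) x +
            C * ZZ lam d N 0 x ^ 2 * ZZ lam d N s x) := by
        apply intervalIntegral.integral_mono_on ht
          ((continuous_finsetSum _
            (fun p _ => (FF_cont H.h0 p).norm.const_mul _)).intervalIntegrable _ _)
          ((((ZZ_cont H N _).const_mul _).add
            ((((ZZ_cont H N 0).pow 2).const_mul C).mul (ZZ_cont H N s))).intervalIntegrable _ _)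
        intro x _
        refine (nl_high H N s x).trans ?_
        simp only [Pi.add_apply, Pi.mul_apply, Pi.pow_apply]
        generalize ZZ lam d N 0 x = z
        unfold ZZ
        rw [← mul_assoc, mul_sum, mul_sum, mul_sum, ← sum_add_distrib]
        refine sum_le_sum (fun p _ => ?_)
        have hp := rr_nonneg p
        have e : ν * (rr p ^ (s + 2) * ‖uu lam d p x‖) + C * z ^ 2 * (rr p ^ s * ‖uu lam d p x‖) -
            2 ^ (s + 1) * z * (rr p ^ (s + 1) * ‖uu lam d p x‖) =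
            (rr p ^ s * ‖uu lam d p x‖) * ((2 * ν * rr p - 2 ^ (s + 1) * z) ^ 2 / (4 * ν)) := by
          simp only [C]; field_simp; ring
        have : 0 ≤ (rr p ^ s * ‖uu lam d p x‖) *
            ((2 * ν * rr p - 2 ^ (s + 1) * z) ^ 2 / (4 * ν)) := by positivity
        linarith
      have c1 : Continuous (fun x => C * ZZ lam d N 0 x ^ 2 * ZZ lam d N s x) :=
        (((ZZ_cont H N 0).pow 2).const_mul C).mul (ZZ_cont H N s)
      rw [intervalIntegral.integral_add (((ZZ_cont H N _).const_mul _).intervalIntegrable _ _)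
        (c1.intervalIntegrable _ _), intervalIntegral.integral_const_mul] at h2
      have h3 : ∑ p ∈ box (N, N), rr p ^ s * ‖d p‖ ≤ A :=
        (hd s).sum_le_tsum _ (fun p _ => by have := rr_nonneg p; positivity)
      unfold ZZ at *
      linarith) ht
  refine g1.trans (mul_le_mul_of_nonneg_left (Real.exp_le_exp.2 ?_) hA)
  rw [intervalIntegral.integral_const_mul]
  apply mul_le_mul_of_nonneg_left _ hC
  have h4 : ∫ x in (0 : ℝ)..t, ZZ lam d N 0 x ^ 2 ≤ ∫ x in (0 : ℝ)..t, X0 * ZZ lam d N 1 x :=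
    intervalIntegral.integral_mono_on ht (((ZZ_cont H N 0).pow 2).intervalIntegrable _ _)
      (((ZZ_cont H N 1).const_mul _).intervalIntegrable _ _)
      (fun x hx => (ZZ_zero_sq H N x).trans (mul_le_mul_of_nonneg_right
        (low_bound H hX0 hs N hx.1).1 (ZZ_nonneg N 1 x)))
  rw [intervalIntegral.integral_const_mul] at h4
  refine h4.trans (mul_le_mul_of_nonneg_left ?_ hX00)
  rw [le_div_iff₀ hgap, mul_comm]
  exact (low_bound H hX0 hs N ht).2

lemma exists_box (D : Finset M) : ∃ N : Fin 3 → ℕ, D ⊆ box (N, N) := by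
  refine ⟨(D.sup id).1 ⊔ (D.sup id).2, fun p hp => ?_⟩
  rw [mem_box]
  have : p ≤ D.sup id := le_sup (f := id) hp
  exact ⟨this.1.trans le_sup_left, this.2.trans le_sup_right⟩

/-- summable majorants on bounded time intervals -/
theorem majorant (H : Data ν lam d) {X0 : ℝ}
    (hX0 : ∀ D : Finset M, ∑ p ∈ D, (rr p)⁻¹ * ‖d p‖ ≤ X0) (hs : kap / 2 * X0 < ν)
    (hd : ∀ s : ℕ, Summable (fun p => rr p ^ s * ‖d p‖)) (s : ℕ) (T : ℝ) (hT : 0 ≤ T) :
    ∃ v : M → ℝ, Summable v ∧ ∀ p, ∀ t ∈ Set.Icc 0 T, rr p ^ s * ‖uu lam d p t‖ ≤ v p := by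
  obtain ⟨B0, hB0⟩ := high_bound H hX0 hs hd 0
  obtain ⟨B1, hB1⟩ := high_bound H hX0 hs hd (s + 1)
  refine ⟨fun p => rr p ^ s * ‖d p‖ + ∫ x in (0 : ℝ)..T, rr p ^ s * ‖FF lam d p x‖,
    (hd s).add ?_, ?_⟩
  · have hnn : ∀ p, 0 ≤ ∫ x in (0 : ℝ)..T, rr p ^ s * ‖FF lam d p x‖ := fun p =>
      intervalIntegral.integral_nonneg hT (fun x _ => by have := rr_nonneg p; positivity)
    apply summable_of_sum_le (c := T * (2 ^ (s + 1) * (B0 * B1))) hnn
    intro D
    obtain ⟨N, hN⟩ := exists_box D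
    refine (sum_le_sum_of_subset_of_nonneg hN (fun p _ _ => hnn p)).trans ?_
    rw [← intervalIntegral.integral_finsetSum
      (fun p _ => ((FF_cont H.h0 p).norm.const_mul _).intervalIntegrable _ _)]
    have : ∫ x in (0 : ℝ)..T, ∑ p ∈ box (N, N), rr p ^ s * ‖FF lam d p x‖ ≤
        ∫ x in (0 : ℝ)..T, 2 ^ (s + 1) * (B0 * B1) := by
      apply intervalIntegral.integral_mono_on hT
        ((continuous_finsetSum _
          (fun p _ => (FF_cont H.h0 p).norm.const_mul _)).intervalIntegrable _ _)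
        (continuous_const.intervalIntegrable _ _)
      intro x hx
      refine (nl_high H N s x).trans (mul_le_mul_of_nonneg_left ?_ (by positivity))
      exact mul_le_mul (hB0 N x hx.1) (hB1 N x hx.1) (ZZ_nonneg _ _ _)
        ((ZZ_nonneg _ _ _).trans (hB0 N x hx.1))
    rwa [intervalIntegral.integral_const, sub_zero, smul_eq_mul] at this
  · intro p t ht
    have hp := rr_nonneg p
    have hre : 0 ≤ (lam p).re := by rw [H.re]; exact mul_nonneg H.pos.le (sq3_nonneg _)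
    have h1 := uu_est (lam := lam) H.h0 p hre ht.1
    have h2 : 0 ≤ (lam p).re * ∫ s in (0 : ℝ)..t, ‖uu lam d p s‖ :=
      mul_nonneg hre (intervalIntegral.integral_nonneg ht.1 (fun x _ => norm_nonneg _))
    have h3 : ∫ s in (0 : ℝ)..t, ‖FF lam d p s‖ ≤ ∫ s in (0 : ℝ)..T, ‖FF lam d p s‖ :=
      intervalIntegral.integral_mono_interval le_rfl ht.1 ht.2
        (Filter.Eventually.of_forall (fun x => norm_nonneg _))
        ((FF_cont H.h0 p).norm.intervalIntegrable _ _)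
    simp only
    rw [intervalIntegral.integral_const_mul, ← mul_add]
    exact mul_le_mul_of_nonneg_left (by linarith) (by positivity)

end Pool.Agent.H730Z.NS
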