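import Pool.Agent.H730Z.NS.Est

set_option autoImplicit false

namespace Pool.Agent.H730Z.NS

open Finset Complex MeasureTheory
open scoped ContDiff

/-- smooth periodic functions -/
def SP (f : R3 → ℂ) : Prop := ContDiff ℝ ∞ f ∧ ∀ x j, f (x + Pi.single j 1) = f x

/-- the character with negative sign -/
noncomputable def ch (k : Fin 3 → ℤ) (x : R3) : ℂ :=
  cexp (-(2 * Real.pi * I * ∑ j, (k j : ℂ) * (x j : ℂ)))

/-- Fourier coefficient -/
noncomputable def cf (f : R3 → ℂ) (k : Fin 3 → ℤ) : ℂ := ∫ x in Set.Icc (0 : R3) 1, ch k x * f x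

/-- partial derivative -/
noncomputable def pdc (j : Fin 3) (f : R3 → ℂ) (x : R3) : ℂ := fderiv ℝ f x (Pi.single j 1)

/-- frequency vector -/
noncomputable def fq (k : Fin 3 → ℤ) : R3 := fun i => 2 * Real.pi * k i

lemma SP.pdc {f : R3 → ℂ} (h : SP f) (j : Fin 3) : SP (pdc j f) := by
  refine ⟨?_, fun x i => ?_⟩
  · have := (contDiff_infty_iff_fderiv.1 h.1).2
    exact this.clm_apply contDiff_const
  · unfold NS.pdc
    have e : f = fun y => f (y + Pi.single i 1) := funext (fun y => (h.2 y i).symm)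
    conv_rhs => rw [e]
    rw [fderiv_comp_add_right]

lemma ch_cont (k : Fin 3 → ℤ) : Continuous (ch k) := by unfold ch; fun_prop

lemma norm_ch (k : Fin 3 → ℤ) (x : R3) : ‖ch k x‖ = 1 := by
  have : ch k x = cexp ((-(2 * Real.pi * ∑ j, (k j : ℝ) * x j) : ℝ) * I) := by
    unfold ch; congr 1; push_cast; ring
  rw [this, Complex.norm_exp_ofReal_mul_I]

lemma ch_periodic (k : Fin 3 → ℤ) (x : R3) (j : Fin 3) : ch k (x + Pi.single j 1) = ch k x := by
  have : -(2 * Real.pi * I * ∑ i, (k i : ℂ) * (((x + Pi.single j 1 : R3) i : ℝ) : ℂ)) =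
      -(2 * Real.pi * I * ∑ i, (k i : ℂ) * (x i : ℂ)) + ((-k j : ℤ) : ℂ) * (2 * Real.pi * I) := by
    fin_cases j <;> simp [Fin.sum_univ_three] <;> ring
  rw [ch, this, Complex.exp_add, Complex.exp_int_mul_two_pi_mul_I, mul_one, ch]

lemma ch_deriv (k : Fin 3 → ℤ) (x : R3) : ∃ L : R3 →L[ℝ] ℂ, HasFDerivAt (ch k) L x ∧
    ∀ j, L (Pi.single j 1) = -(I * fq k j) * ch k x := by
  let P : Fin 3 → R3 →L[ℝ] ℂ := fun i => Complex.ofRealCLM.comp (ContinuousLinearMap.proj i)
  let L : R3 →L[ℝ] ℂ := (-(I * fq k 0)) • P 0 + (-(I * fq k 1)) • P 1 + (-(I * fq k 2)) • P 2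
  have e : ch k = fun x => cexp (L x) := by
    funext x; unfold ch; congr 1; simp [L, P, fq, Fin.sum_univ_three]; ring
  refine ⟨ch k x • L, ?_, fun j => ?_⟩
  · rw [e]; exact L.hasFDerivAt.cexp
  · fin_cases j <;> simp [L, P] <;> ring

lemma integral_pdc {g : R3 → ℂ} (hg : ContDiff ℝ 1 g) (hp : ∀ x j, g (x + Pi.single j 1) = g x)
    (j : Fin 3) : ∫ x in Set.Icc (0 : R3) 1, fderiv ℝ g x (Pi.single j 1) = 0 := by
  have hd := hg.differentiable one_ne_zero
  have hc : Continuous (fun x => fderiv ℝ g x (Pi.single j 1)) :=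
    (hg.continuous_fderiv one_ne_zero).clm_apply continuous_const
  have e : ∀ x, ∑ i : Fin 3, (if i = j then fderiv ℝ g x else 0) (Pi.single i 1) =
      fderiv ℝ g x (Pi.single j 1) := by
    intro x
    rw [Finset.sum_eq_single j]
    · simp
    · intro i _ hi; simp [hi]
    · simp
  have := integral_divergence_of_hasFDerivAt_off_countable' (n := 2) (E := ℂ) (0 : R3) 1
    zero_le_one (fun i x => if i = j then g x else 0)
    (fun i x => if i = j then fderiv ℝ g x else 0) ∅ Set.countable_empty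
    (fun i => by
      by_cases h : i = j
      · simp only [h, if_true]; exact hg.continuous.continuousOn
      · simp only [h, if_false]; exact continuousOn_const)
    (fun x _ i => by
      by_cases h : i = j
      · simp only [h, if_true]; exact (hd x).hasFDerivAt
      · simp only [h, if_false]; exact hasFDerivAt_const _ _)
    (by simp only [e]; exact hc.continuousOn.integrableOn_compact isCompact_Icc)
  simp only [e] at this
  rw [this]
  refine sum_eq_zero (fun i _ => ?_)
  rw [sub_eq_zero]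
  congr 1
  funext x
  have : (Fin.insertNth i ((1 : R3) i) x : R3) =
      (Fin.insertNth i ((0 : R3) i) x : R3) + Pi.single i 1 := by
    funext m
    refine Fin.succAboveCases i ?_ (fun m => ?_) m
    · simp
    · simp [Fin.succAbove_ne]
  rw [this, hp]

lemma cf_pdc {f : R3 → ℂ} (h : SP f) (j : Fin 3) (k : Fin 3 → ℤ) :
    cf (pdc j f) k = (I * fq k j) * cf f k := by
  have h1 : ContDiff ℝ 1 f := h.1.of_le (by exact_mod_cast le_top)
  have hch : ContDiff ℝ 1 (ch k) := by
    unfold ch
    refine (ContDiff.neg (contDiff_const.mul (ContDiff.sum (fun i _ => contDiff_const.mul ?_)))).cexp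
    exact Complex.ofRealCLM.contDiff.comp (contDiff_apply ℝ ℝ i)
  have := integral_pdc (g := fun x => ch k x * f x) (hch.mul h1)
    (fun x j => by simp only [ch_periodic, h.2]) j
  have e : ∀ x, fderiv ℝ (fun x => ch k x * f x) x (Pi.single j 1) =
      ch k x * pdc j f x - (I * fq k j) * (ch k x * f x) := by
    intro x
    obtain ⟨L, hL, hL2⟩ := ch_deriv k x
    have := (hL.mul ((h1.differentiable one_ne_zero) x).hasFDerivAt).fderiv
    rw [show (fun x => ch k x * f x) = ch k * f from rfl, this]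
    simp [hL2, pdc]; ring
  simp only [e] at this
  have i1 : IntegrableOn (fun x => ch k x * pdc j f x) (Set.Icc (0 : R3) 1) :=
    ((ch_cont k).mul (h.pdc j).1.continuous).continuousOn.integrableOn_compact isCompact_Icc
  have i2 : IntegrableOn (fun x => (I * fq k j) * (ch k x * f x)) (Set.Icc (0 : R3) 1) :=
    (((ch_cont k).mul h.1.continuous).const_mul _).continuousOn.integrableOn_compact isCompact_Icc
  rw [integral_sub i1 i2, integral_const_mul, sub_eq_zero] at this
  exact this

lemma nr_le_sum (l : R3) : nr l ≤ |l 0| + |l 1| + |l 2| := by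
  apply Real.sqrt_le_iff.2
  refine ⟨by positivity, ?_⟩
  unfold sq3
  rw [← sq_abs (l 0), ← sq_abs (l 1), ← sq_abs (l 2)]
  nlinarith [mul_nonneg (abs_nonneg (l 0)) (abs_nonneg (l 1)),
    mul_nonneg (abs_nonneg (l 0)) (abs_nonneg (l 2)), mul_nonneg (abs_nonneg (l 1)) (abs_nonneg (l 2))]

lemma cf_decay (n : ℕ) : ∀ {f : R3 → ℂ}, SP f → ∃ C, ∀ k, (1 + nr (fq k)) ^ n * ‖cf f k‖ ≤ C := by
  induction n with
  | zero =>
    intro f _
    refine ⟨∫ x in Set.Icc (0 : R3) 1, ‖f x‖, fun k => ?_⟩
    rw [pow_zero, one_mul]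
    refine (norm_integral_le_integral_norm _).trans (le_of_eq ?_)
    simp only [norm_mul, norm_ch, one_mul]
  | succ n ih =>
    intro f h
    obtain ⟨C, hC⟩ := ih h
    obtain ⟨C0, h0⟩ := ih (h.pdc 0)
    obtain ⟨C1, h1⟩ := ih (h.pdc 1)
    obtain ⟨C2, h2⟩ := ih (h.pdc 2)
    refine ⟨C + C0 + C1 + C2, fun k => ?_⟩
    have a := hC k
    have a0 := h0 k
    have a1 := h1 k
    have a2 := h2 k
    rw [cf_pdc h, norm_mul, norm_mul, norm_I, one_mul, norm_real, Real.norm_eq_abs] at a0 a1 a2
    have b := nr_le_sum (fq k)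
    have c : 0 ≤ (1 + nr (fq k)) ^ n * ‖cf f k‖ := by have := nr_nonneg (fq k); positivity
    have := mul_le_mul_of_nonneg_left b c
    rw [pow_succ]
    nlinarith

lemma summable_lattice : Summable (fun k : Fin 3 → ℤ => 1 / (1 + nr (fq k)) ^ 6) := by
  let g : ℤ → ℝ := fun n => 1 / (1 + (n : ℝ) ^ 2)
  have g0 : ∀ n, 0 ≤ g n := fun n => by positivity
  have hg : Summable g := by
    have h1 : Summable (fun n : ℤ => 1 / (n : ℝ) ^ 2) := Real.summable_one_div_int_pow.2 one_lt_two
    have h2 : Summable (fun n : ℤ => if n = 0 then (1 : ℝ) else 0) := (hasSum_ite_eq 0 1).summable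
    refine Summable.of_nonneg_of_le g0 (fun n => ?_) (h1.add h2)
    by_cases hn : n = 0
    · simp [g, hn]
    · have : (0 : ℝ) < (n : ℝ) ^ 2 := by positivity
      simp only [g, hn, if_false, add_zero]
      exact one_div_le_one_div_of_le this (by linarith)
  have hs : Summable (fun k : Fin 3 → ℤ => ∏ j, g (k j)) := by
    apply summable_of_sum_le (c := ∏ _j : Fin 3, ∑' n, g n)
      (fun k => prod_nonneg (fun j _ => g0 _))
    intro D
    let S : Finset ℤ := D.biUnion (fun k => univ.image k)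
    have hD : D ⊆ Fintype.piFinset (fun _ => S) := by
      intro k hk
      rw [Fintype.mem_piFinset]
      intro j
      exact mem_biUnion.2 ⟨k, hk, mem_image.2 ⟨j, mem_univ _, rfl⟩⟩
    refine (sum_le_sum_of_subset_of_nonneg hD
      (fun k _ _ => prod_nonneg (fun j _ => g0 _))).trans ?_
    rw [← prod_univ_sum (fun _ : Fin 3 => S) (fun _ n => g n)]
    exact prod_le_prod (fun _ _ => sum_nonneg (fun n _ => g0 n))
      (fun _ _ => hg.sum_le_tsum S (fun n _ => g0 n))
  refine Summable.of_nonneg_of_le (fun k => by have := nr_nonneg (fq k); positivity)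
    (fun k => ?_) hs
  have key : ∀ j, 1 / (1 + nr (fq k)) ^ 2 ≤ g (k j) := by
    intro j
    apply one_div_le_one_div_of_le (by positivity)
    have h1 : (fq k j) ^ 2 ≤ nr (fq k) ^ 2 := by
      rw [nr_sq, sq3]
      fin_cases j <;> simp <;>
        nlinarith [sq_nonneg (fq k 0), sq_nonneg (fq k 1), sq_nonneg (fq k 2)]
    have h2 : ((k j : ℝ)) ^ 2 ≤ (fq k j) ^ 2 := by
      have : 1 ≤ (2 * Real.pi) ^ 2 := by nlinarith [Real.pi_gt_three]
      rw [fq, mul_pow]
      nlinarith [sq_nonneg (k j : ℝ)]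
    nlinarith [nr_nonneg (fq k)]
  have hn := nr_nonneg (fq k)
  calc 1 / (1 + nr (fq k)) ^ 6 = ∏ _j : Fin 3, 1 / (1 + nr (fq k)) ^ 2 := by
        simp only [prod_const, card_univ, Fintype.card_fin]; rw [div_pow, ← pow_mul, one_pow]
    _ ≤ _ := prod_le_prod (fun _ _ => by positivity) (fun j _ => key j)

lemma cf_summable {f : R3 → ℂ} (h : SP f) (s : ℕ) :
    Summable (fun k => (1 + nr (fq k)) ^ s * ‖cf f k‖) := by
  obtain ⟨C, hC⟩ := cf_decay (s + 6) h
  refine Summable.of_nonneg_of_le (fun k => by have := nr_nonneg (fq k); positivity)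
    (fun k => ?_) (summable_lattice.mul_left C)
  have hn := nr_nonneg (fq k)
  rw [mul_one_div, le_div_iff₀ (by positivity)]
  refine le_trans (le_of_eq ?_) (hC k)
  ring

lemma periodic_int {f : R3 → ℂ} (hp : ∀ x j, f (x + Pi.single j 1) = f x) (x : R3)
    (n : Fin 3 → ℤ) : f (x + fun i => (n i : ℝ)) = f x := by
  have h : ∀ (j : Fin 3) (m : ℤ) (y : R3), f (y + m • Pi.single j 1) = f y :=
    fun j m y => (Function.Periodic.zsmul (f := f) (c := Pi.single j 1) (fun y => hp y j) m) y
  have e : (x + fun i => (n i : ℝ)) =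
      x + n 0 • Pi.single 0 1 + n 1 • Pi.single 1 1 + n 2 • Pi.single 2 1 := by
    funext i; fin_cases i <;> simp
  rw [e, h, h, h]

/-- Fourier inversion -/
lemma cf_hasSum {f : R3 → ℂ} (h : SP f) (x : R3) :
    HasSum (fun k => cf f k * ch (-k) x) (f x) := by
  let π : R3 → UnitAddTorus (Fin 3) := fun x i => (x i : UnitAddCircle)
  have hq : IsOpenQuotientMap π :=
    IsOpenQuotientMap.piMap (fun _ : Fin 3 => QuotientAddGroup.isOpenQuotientMap_mk)
  let F0 : UnitAddTorus (Fin 3) → ℂ := fun y => f (Function.surjInv hq.surjective y)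
  have hF : ∀ x, F0 (π x) = f x := by
    intro x
    have h1 := Function.surjInv_eq hq.surjective (π x)
    have h2 : ∀ i, ∃ n : ℤ, (n : ℝ) = Function.surjInv hq.surjective (π x) i - x i := by
      intro i
      have := congrFun h1 i
      simp only [π] at this
      rw [← sub_eq_zero, ← AddCircle.coe_sub, AddCircle.coe_eq_zero_iff] at this
      obtain ⟨n, hn⟩ := this
      exact ⟨n, by simpa using hn⟩
    choose n hn using h2
    have : Function.surjInv hq.surjective (π x) = x + fun i => (n i : ℝ) := by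
      funext i; simp [hn]
    simp only [F0]
    rw [this, periodic_int h.2]
  have hc : Continuous F0 := by
    rw [← hq.continuous_comp_iff]
    have : F0 ∘ π = f := funext hF
    rw [this]; exact h.1.continuous
  let F : C(UnitAddTorus (Fin 3), ℂ) := ⟨F0, hc⟩
  have hm : ∀ (k : Fin 3 → ℤ) (x : R3), UnitAddTorus.mFourier (-k) (π x) = ch k x := by
    intro k x
    simp only [UnitAddTorus.mFourier, ContinuousMap.coe_mk, π, fourier_coe_apply, ch,
      ← Complex.exp_sum]
    congr 1
    simp [Fin.sum_univ_three]; ring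
  have hco : ∀ k, UnitAddTorus.mFourierCoeff F k = cf f k := by
    intro k
    rw [UnitAddTorus.mFourierCoeff_eq_integral F k 0, cf]
    have : {x : R3 | ∀ i, x i ∈ Set.Ioc ((0 : R3) i) ((0 : R3) i + 1)} =
        Set.pi Set.univ (fun i => Set.Ioc ((0 : R3) i) ((1 : R3) i)) := by
      ext x; simp
    rw [this, volume_pi, setIntegral_congr_set Measure.univ_pi_Ioc_ae_eq_Icc]
    congr 1
    funext x
    rw [smul_eq_mul]
    exact congrArg₂ (· * ·) (hm k x) (hF x)
  have hs : Summable (UnitAddTorus.mFourierCoeff F) := by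
    have := cf_summable h 0
    simp only [pow_zero, one_mul] at this
    rw [funext hco]
    exact this.of_norm
  have := UnitAddTorus.hasSum_mFourier_series_apply_of_summable hs (π x)
  have e : F (π x) = f x := hF x
  rw [e] at this
  convert this using 2 with k
  rw [hco, smul_eq_mul, ← hm, neg_neg]

lemma cf_conj {f : R3 → ℝ} (k : Fin 3 → ℤ) :
    cf (fun x => (f x : ℂ)) (-k) = (starRingEnd ℂ) (cf (fun x => (f x : ℂ)) k) := by
  unfold cf
  rw [← integral_conj]
  congr 1
  funext x
  simp only [ch, map_mul, conj_ofReal, ← Complex.exp_conj]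
  congr 2
  simp [Fin.sum_univ_three, map_ofNat]; ring

end Pool.Agent.H730Z.NS
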