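import Mathlib

set_option autoImplicit false

namespace Pool.Agent.H730Z.NS

open Finset Complex

/-- complex vectors -/
abbrev V := EuclideanSpace ℂ (Fin 3)

/-- real vectors -/
abbrev R3 := Fin 3 → ℝ

def sq3 (l : R3) : ℝ := l 0 ^ 2 + l 1 ^ 2 + l 2 ^ 2
def dot3 (l m : R3) : ℝ := l 0 * m 0 + l 1 * m 1 + l 2 * m 2
def cr3 (l m : R3) : R3 := ![l 1 * m 2 - l 2 * m 1, l 2 * m 0 - l 0 * m 2, l 0 * m 1 - l 1 * m 0]
noncomputable def nr (l : R3) : ℝ := Real.sqrt (sq3 l)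

/-- bilinear pairing of a complex and a real vector -/
noncomputable def dotc (a : V) (m : R3) : ℂ := a 0 * m 0 + a 1 * m 1 + a 2 * m 2

/-- real vector as a complex one -/
noncomputable def ofR (k : R3) : V := WithLp.toLp 2 (fun i => (k i : ℂ))

/-- Leray projection at frequency `k` -/
noncomputable def proj (k : R3) (w : V) : V := w - (dotc w k / (sq3 k : ℂ)) • ofR k

/-- conjugate vector -/
noncomputable def cj (a : V) : V := WithLp.toLp 2 (fun i => (starRingEnd ℂ) (a i))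

/-- symmetrised interaction -/
noncomputable def sym (l m : R3) (a b : V) : V := dotc a m • b + dotc b l • a

lemma sq3_nonneg (l : R3) : 0 ≤ sq3 l := by unfold sq3; positivity
lemma nr_nonneg (l : R3) : 0 ≤ nr l := Real.sqrt_nonneg _
lemma nr_sq (l : R3) : nr l ^ 2 = sq3 l := Real.sq_sqrt (sq3_nonneg l)

lemma sq3_eq_zero {l : R3} (h : sq3 l = 0) : l = 0 := by
  unfold sq3 at h
  funext i
  fin_cases i <;> simp <;> nlinarith [sq_nonneg (l 0), sq_nonneg (l 1), sq_nonneg (l 2)]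

lemma norm_sq_V (w : V) : ‖w‖ ^ 2 = ‖w 0‖ ^ 2 + ‖w 1‖ ^ 2 + ‖w 2‖ ^ 2 := by
  rw [EuclideanSpace.norm_sq_eq, Fin.sum_univ_three]

lemma norm_cj (a : V) : ‖cj a‖ = ‖a‖ := by
  have : ‖cj a‖ ^ 2 = ‖a‖ ^ 2 := by
    rw [norm_sq_V, norm_sq_V]; simp [cj]
  exact (pow_left_inj₀ (norm_nonneg _) (norm_nonneg _) two_ne_zero).1 this

lemma dotc_cj (a : V) (m : R3) : dotc (cj a) m = (starRingEnd ℂ) (dotc a m) := by
  simp [dotc, cj]

/-- orthogonal decomposition along `k`, `n`, `n × k` -/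
lemma frame (w : V) (k n : R3) (h : dot3 k n = 0) :
    ‖w‖ ^ 2 * sq3 k * sq3 n = ‖dotc w k‖ ^ 2 * sq3 n + ‖dotc w n‖ ^ 2 * sq3 k +
      ‖dotc w (cr3 n k)‖ ^ 2 := by
  rw [norm_sq_V]
  simp only [Complex.sq_norm, normSq_apply, dotc, add_re, add_im, mul_re, mul_im, ofReal_re,
    ofReal_im, mul_zero, sub_zero, zero_add, cr3, sq3, Matrix.cons_val_zero, Matrix.cons_val_one,
    Matrix.cons_val_two, Matrix.head_cons, Matrix.tail_cons]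
  unfold dot3 at h
  set x0 := (w 0).re; set x1 := (w 1).re; set x2 := (w 2).re
  set y0 := (w 0).im; set y1 := (w 1).im; set y2 := (w 2).im
  linear_combination ((x0 ^ 2 + x1 ^ 2 + x2 ^ 2 + y0 ^ 2 + y1 ^ 2 + y2 ^ 2) *
      (k 0 * n 0 + k 1 * n 1 + k 2 * n 2) -
    2 * (x0 * k 0 + x1 * k 1 + x2 * k 2) * (x0 * n 0 + x1 * n 1 + x2 * n 2) -
    2 * (y0 * k 0 + y1 * k 1 + y2 * k 2) * (y0 * n 0 + y1 * n 1 + y2 * n 2)) * h

lemma dotc_add (a b : V) (m : R3) : dotc (a + b) m = dotc a m + dotc b m := by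
  simp [dotc]; ring
lemma dotc_sub (a b : V) (m : R3) : dotc (a - b) m = dotc a m - dotc b m := by
  simp [dotc]; ring
lemma dotc_smul (c : ℂ) (a : V) (m : R3) : dotc (c • a) m = c * dotc a m := by
  simp [dotc]; ring
lemma dotc_ofR (k m : R3) : dotc (ofR k) m = (dot3 k m : ℂ) := by
  simp [dotc, ofR, dot3]
lemma dotc_addr (a : V) (l m : R3) : dotc a (l + m) = dotc a l + dotc a m := by
  simp [dotc]; ring
lemma dotc_negr (a : V) (m : R3) : dotc a (-m) = -dotc a m := by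
  simp [dotc]; ring
lemma dotc_zero (m : R3) : dotc 0 m = 0 := by simp [dotc]
lemma dotc_zeror (a : V) : dotc a 0 = 0 := by simp [dotc]
lemma dot3_self (k : R3) : dot3 k k = sq3 k := by simp [dot3, sq3]; ring

lemma dotc_proj (k : R3) (w : V) : dotc (proj k w) k = 0 := by
  rw [proj, dotc_sub, dotc_smul, dotc_ofR, dot3_self]
  by_cases h : sq3 k = 0
  · rw [sq3_eq_zero h]; simp [dotc_zeror]
  · have : (sq3 k : ℂ) ≠ 0 := by exact_mod_cast h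
    field_simp; ring

lemma dotc_proj_perp (k n : R3) (w : V) (h : dot3 k n = 0) : dotc (proj k w) n = dotc w n := by
  rw [proj, dotc_sub, dotc_smul, dotc_ofR, h]; simp

/-- Cauchy-Schwarz -/
lemma norm_dotc_le (a : V) (m : R3) : ‖dotc a m‖ ≤ ‖a‖ * nr m := by
  have h : ‖dotc a m‖ ^ 2 ≤ (‖a‖ * nr m) ^ 2 := by
    rw [mul_pow, nr_sq, norm_sq_V]
    simp only [Complex.sq_norm, normSq_apply, dotc, add_re, add_im, mul_re, mul_im, ofReal_re,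
      ofReal_im, mul_zero, sub_zero, zero_add, sq3]
    set x0 := (a 0).re; set x1 := (a 1).re; set x2 := (a 2).re
    set y0 := (a 0).im; set y1 := (a 1).im; set y2 := (a 2).im
    nlinarith [sq_nonneg (x0 * m 1 - x1 * m 0), sq_nonneg (x0 * m 2 - x2 * m 0),
      sq_nonneg (x1 * m 2 - x2 * m 1), sq_nonneg (y0 * m 1 - y1 * m 0),
      sq_nonneg (y0 * m 2 - y2 * m 0), sq_nonneg (y1 * m 2 - y2 * m 1)]
  exact (pow_le_pow_iff_left₀ (norm_nonneg _) (mul_nonneg (norm_nonneg _) (nr_nonneg _))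
    two_ne_zero).1 h

lemma norm_proj_le (k : R3) (w : V) : ‖proj k w‖ ≤ ‖w‖ := by
  by_cases h : sq3 k = 0
  · simp [proj, h]
  have hk : 0 < sq3 k := lt_of_le_of_ne (sq3_nonneg k) (Ne.symm h)
  have h2 : ‖proj k w‖ ^ 2 = ‖w‖ ^ 2 - ‖dotc w k‖ ^ 2 / sq3 k := by
    rw [norm_sq_V, norm_sq_V]
    simp only [proj, ofR, PiLp.sub_apply, PiLp.smul_apply, smul_eq_mul, Complex.sq_norm,
      normSq_apply, sub_re, sub_im, mul_re, mul_im, ofReal_re, ofReal_im, div_ofReal_re,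
      div_ofReal_im, mul_zero, sub_zero, zero_add, dotc, add_re, add_im]
    field_simp
    unfold sq3
    ring
  have h3 : ‖proj k w‖ ^ 2 ≤ ‖w‖ ^ 2 := by
    rw [h2]; have : 0 ≤ ‖dotc w k‖ ^ 2 / sq3 k := by positivity
    linarith
  exact (pow_le_pow_iff_left₀ (norm_nonneg _) (norm_nonneg _) two_ne_zero).1 h3

/-- the biquadratic inequality -/
lemma quad (al be K r s x1 x2 y1 y2 : ℝ) (hK : 0 ≤ K)
    (h1 : al * s ^ 2 ≤ K) (h2 : al * r ^ 2 ≤ K) (h3 : be ≤ K)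
    (h4 : be + al * (r ^ 2 + s ^ 2) ≤ 2 * K) :
    al * (s * x1 * y2 + r * y1 * x2) ^ 2 + be * (x1 ^ 2 * y1 ^ 2) ≤
      K * ((x1 ^ 2 + x2 ^ 2) * (y1 ^ 2 + y2 ^ 2)) := by
  set A := (K - be) * x1 ^ 2 + (K - al * r ^ 2) * x2 ^ 2 with hA
  set C := (K - al * s ^ 2) * x1 ^ 2 + K * x2 ^ 2 with hC
  set B := al * r * s * x1 * x2 with hB
  have a1 : 0 ≤ K - be := by linarith
  have a2 : 0 ≤ K - al * r ^ 2 := by linarith
  have a3 : 0 ≤ K - al * s ^ 2 := by linarith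
  have a4 : 0 ≤ 2 * K - be - al * (r ^ 2 + s ^ 2) := by linarith
  have hA0 : 0 ≤ A := by positivity
  have hC0 : 0 ≤ C := by positivity
  have hdet : B ^ 2 ≤ A * C := by
    have : A * C - B ^ 2 = (K - be) * (K - al * s ^ 2) * x1 ^ 4 + K * (K - al * r ^ 2) * x2 ^ 4 +
        K * (2 * K - be - al * (r ^ 2 + s ^ 2)) * (x1 ^ 2 * x2 ^ 2) := by
      rw [hA, hB, hC]; ring
    have h0 : 0 ≤ (K - be) * (K - al * s ^ 2) * x1 ^ 4 + K * (K - al * r ^ 2) * x2 ^ 4 +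
        K * (2 * K - be - al * (r ^ 2 + s ^ 2)) * (x1 ^ 2 * x2 ^ 2) := by positivity
    linarith
  have goal : 0 ≤ A * y1 ^ 2 - 2 * B * y1 * y2 + C * y2 ^ 2 := by
    by_cases hA1 : A = 0
    · have : B = 0 := by
        rw [hA1, zero_mul] at hdet
        exact pow_eq_zero_iff two_ne_zero |>.1 (le_antisymm hdet (sq_nonneg _))
      rw [hA1, this]; simp; positivity
    · have hApos : 0 < A := lt_of_le_of_ne hA0 (Ne.symm hA1)
      have : A * (A * y1 ^ 2 - 2 * B * y1 * y2 + C * y2 ^ 2) =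
          (A * y1 - B * y2) ^ 2 + (A * C - B ^ 2) * y2 ^ 2 := by ring
      have h5 : 0 ≤ A * (A * y1 ^ 2 - 2 * B * y1 * y2 + C * y2 ^ 2) := by
        rw [this]
        have : 0 ≤ A * C - B ^ 2 := by linarith
        positivity
      exact (mul_nonneg_iff_of_pos_left hApos).1 h5
  have e : K * ((x1 ^ 2 + x2 ^ 2) * (y1 ^ 2 + y2 ^ 2)) -
      (al * (s * x1 * y2 + r * y1 * x2) ^ 2 + be * (x1 ^ 2 * y1 ^ 2)) =
      A * y1 ^ 2 - 2 * B * y1 * y2 + C * y2 ^ 2 := by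
    rw [hA, hB, hC]; ring
  linarith

/-- one interaction, squared -/
lemma one_pair (l m : R3) (a b : V) (ha : dotc a l = 0) (hb : dotc b m = 0) :
    ‖proj (l + m) (sym l m a b)‖ ^ 2 * sq3 (l + m) * sq3 (cr3 l m) ≤
      (‖dotc a m‖ * ‖dotc b (cr3 l m)‖ + ‖dotc b l‖ * ‖dotc a (cr3 l m)‖) ^ 2 * sq3 (l + m) +
        (‖dotc a m‖ * ‖dotc b l‖) ^ 2 * (sq3 l - sq3 m) ^ 2 := by
  have h0 : dot3 (l + m) (cr3 l m) = 0 := by simp [dot3, cr3]; ring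
  have h1 : dot3 (l + m) (cr3 (cr3 l m) (l + m)) = 0 := by simp [dot3, cr3]; ring
  rw [frame _ _ _ h0, dotc_proj, dotc_proj_perp _ _ _ h0, dotc_proj_perp _ _ _ h1]
  have e1 : dotc (sym l m a b) (cr3 (cr3 l m) (l + m)) =
      dotc a m * dotc b l * ((sq3 l - sq3 m : ℝ) : ℂ) := by
    have ea : dotc a (cr3 (cr3 l m) (l + m)) =
        ((sq3 l + dot3 l m : ℝ) : ℂ) * dotc a m - ((sq3 m + dot3 l m : ℝ) : ℂ) * dotc a l := by
      simp [dotc, cr3, sq3, dot3]; ring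
    have eb : dotc b (cr3 (cr3 l m) (l + m)) =
        ((sq3 l + dot3 l m : ℝ) : ℂ) * dotc b m - ((sq3 m + dot3 l m : ℝ) : ℂ) * dotc b l := by
      simp [dotc, cr3, sq3, dot3]; ring
    rw [sym, dotc_add, dotc_smul, dotc_smul, ea, eb, ha, hb]
    push_cast; ring
  have e2 : ‖dotc (sym l m a b) (cr3 l m)‖ ≤
      ‖dotc a m‖ * ‖dotc b (cr3 l m)‖ + ‖dotc b l‖ * ‖dotc a (cr3 l m)‖ := by
    rw [sym, dotc_add, dotc_smul, dotc_smul]
    refine (norm_add_le _ _).trans (le_of_eq ?_)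
    rw [norm_mul, norm_mul]
  rw [e1, norm_mul, norm_mul, Complex.norm_real, Real.norm_eq_abs, mul_pow, sq_abs]
  have := pow_le_pow_left₀ (norm_nonneg _) e2 2
  have := mul_le_mul_of_nonneg_right this (sq3_nonneg (l + m))
  simp only [norm_zero]
  nlinarith

lemma frame_a (l m : R3) (a : V) (ha : dotc a l = 0) (hl : 0 < sq3 l) :
    ‖a‖ ^ 2 * sq3 (cr3 l m) = (nr l * ‖dotc a m‖) ^ 2 + ‖dotc a (cr3 l m)‖ ^ 2 := by
  have h0 : dot3 l (cr3 l m) = 0 := by simp [dot3, cr3]; ring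
  have := frame a l (cr3 l m) h0
  have e : dotc a (cr3 (cr3 l m) l) = (sq3 l : ℂ) * dotc a m - (dot3 l m : ℂ) * dotc a l := by
    simp [dotc, cr3, sq3, dot3]; ring
  rw [e, ha, mul_zero, sub_zero, norm_mul, Complex.norm_real, Real.norm_eq_abs,
    abs_of_pos hl] at this
  simp only [norm_zero] at this
  rw [mul_pow, nr_sq]
  apply mul_left_cancel₀ hl.ne'
  linear_combination this

lemma frame_b (l m : R3) (b : V) (hb : dotc b m = 0) (hm : 0 < sq3 m) :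
    ‖b‖ ^ 2 * sq3 (cr3 l m) = (nr m * ‖dotc b l‖) ^ 2 + ‖dotc b (cr3 l m)‖ ^ 2 := by
  have := frame_a m l b hb hm
  have e : cr3 m l = -cr3 l m := by funext i; fin_cases i <;> simp [cr3] <;> ring
  have e2 : sq3 (-cr3 l m) = sq3 (cr3 l m) := by simp [sq3]
  rwa [e, e2, dotc_negr, norm_neg] at this

lemma aux_amgm (R S : ℝ) (hR : 0 ≤ R) (hS : 0 ≤ S) :
    2 * S * (R * S) ≤ 8 / 27 * (R + S) ^ 2 * (R + S) := by
  have h : 0 ≤ (2 * R - S) ^ 2 * (R + 4 * S) := by positivity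
  have e : 8 / 27 * (R + S) ^ 2 * (R + S) - 2 * S * (R * S) =
      2 / 27 * ((2 * R - S) ^ 2 * (R + 4 * S)) := by ring
  linarith

lemma aux_c3 (D Q Dl : ℝ) (hD : 0 ≤ D) (hQ : 0 ≤ Q) (hl : 0 ≤ Dl) :
    Dl * D * (4 * (D + 4 * Q) - 2 * (D + 4 * Dl)) * Q ≤
      8 / 27 * (D + 4 * Q) * ((D + 4 * Dl) ^ 2 * Q) := by
  have e : 8 / 27 * (D + 4 * Q) * ((D + 4 * Dl) ^ 2 * Q) -
      Dl * D * (4 * (D + 4 * Q) - 2 * (D + 4 * Dl)) * Q =
      1 / 4 * ((D - 4 * Dl) ^ 2 * (D + 4 * Q) * Q) +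
        5 / 108 * ((D + 4 * Dl) ^ 2 * (D + 4 * Q) * Q) + 2 * (Dl * D * (D + 4 * Dl) * Q) := by
    ring
  have h : 0 ≤ 1 / 4 * ((D - 4 * Dl) ^ 2 * (D + 4 * Q) * Q) +
        5 / 108 * ((D + 4 * Dl) ^ 2 * (D + 4 * Q) * Q) + 2 * (Dl * D * (D + 4 * Dl) * Q) := by
    positivity
  linarith

lemma aux_c4 (D Q Dl : ℝ) (hD : 0 ≤ D) (hQ : 0 ≤ Q) (hl : 0 ≤ Dl) :
    Dl * (D * (4 * (D + 4 * Q) - 2 * (D + 4 * Dl)) + 2 * (D + 4 * Q) * (D + 4 * Dl)) ≤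
      16 / 27 * (D + 4 * Q) * (D + 4 * Dl) ^ 2 := by
  have e : 16 / 27 * (D + 4 * Q) * (D + 4 * Dl) ^ 2 -
      Dl * (D * (4 * (D + 4 * Q) - 2 * (D + 4 * Dl)) + 2 * (D + 4 * Q) * (D + 4 * Dl)) =
      13 / 432 * ((D + 4 * Q) * (D + 4 * Dl) ^ 2) + 1 / 4 * (Q * (3 * D - 4 * Dl) ^ 2) +
        9 / 16 * D ^ 3 + 1 / 2 * (D ^ 2 * Dl) + 9 * (D * Dl ^ 2) := by
    ring
  have h : 0 ≤ 13 / 432 * ((D + 4 * Q) * (D + 4 * Dl) ^ 2) + 1 / 4 * (Q * (3 * D - 4 * Dl) ^ 2) +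
        9 / 16 * D ^ 3 + 1 / 2 * (D ^ 2 * Dl) + 9 * (D * Dl ^ 2) := by positivity
  linarith

lemma aux_k (P c E : ℝ) (hP : 0 < P) (hE : 0 < E) (h : (P + 2 * c) * (P - 2 * c) = E) :
    0 < P + 2 * c ∧ 0 < P - 2 * c := by
  constructor
  · by_contra h1
    push Not at h1
    have : 0 ≤ P - 2 * c := by linarith
    have := mul_nonpos_of_nonpos_of_nonneg h1 this
    linarith
  · by_contra h1
    push Not at h1
    have : 0 ≤ P + 2 * c := by linarith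
    have := mul_nonpos_of_nonneg_of_nonpos this h1
    linarith

/-- the real inequality behind the constant -/
lemma real_key (r s c Dl n1 n2 A1 A2 B1 B2 na nb : ℝ) (hr : 0 < r) (hs : 0 < s) (hD : 0 < Dl)
    (hc : Dl = r ^ 2 * s ^ 2 - c ^ 2)
    (h1 : n1 ^ 2 * (r ^ 2 + s ^ 2 + 2 * c) ^ 2 * Dl ≤
      (A1 * B2 + B1 * A2) ^ 2 * (r ^ 2 + s ^ 2 + 2 * c) + (A1 * B1) ^ 2 * (r ^ 2 - s ^ 2) ^ 2)
    (h2 : n2 ^ 2 * (r ^ 2 + s ^ 2 - 2 * c) ^ 2 * Dl ≤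
      (A1 * B2 + B1 * A2) ^ 2 * (r ^ 2 + s ^ 2 - 2 * c) + (A1 * B1) ^ 2 * (r ^ 2 - s ^ 2) ^ 2)
    (ha : na ^ 2 * Dl = (r * A1) ^ 2 + A2 ^ 2) (hb : nb ^ 2 * Dl = (s * B1) ^ 2 + B2 ^ 2) :
    n1 ^ 2 + n2 ^ 2 ≤ 8 / 27 * (r ^ 2 + s ^ 2) ^ 2 / (r ^ 2 * s ^ 2) * (na ^ 2 * nb ^ 2) := by
  obtain ⟨P, hP⟩ : ∃ P, P = r ^ 2 + s ^ 2 := ⟨_, rfl⟩
  obtain ⟨D, hDD⟩ : ∃ D, D = (r ^ 2 - s ^ 2) ^ 2 := ⟨_, rfl⟩
  obtain ⟨Q, hQ⟩ : ∃ Q, Q = r ^ 2 * s ^ 2 := ⟨_, rfl⟩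
  rw [← hP, ← hDD] at h1 h2
  rw [← hQ] at hc
  rw [← hP, ← hQ]
  have hQ0 : 0 < Q := by rw [hQ]; positivity
  have hP0 : 0 < P := by rw [hP]; positivity
  have hD0 : 0 ≤ D := by rw [hDD]; positivity
  have hPD : P ^ 2 = D + 4 * Q := by rw [hP, hDD, hQ]; ring
  have hDQ : Dl ≤ Q := by rw [hc]; linarith [sq_nonneg c]
  obtain ⟨E, hE⟩ : ∃ E, E = D + 4 * Dl := ⟨_, rfl⟩
  have hE0 : 0 < E := by rw [hE]; positivity
  have hk : (P + 2 * c) * (P - 2 * c) = E := by rw [hE, hc]; linear_combination hPD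
  obtain ⟨k1, k2⟩ := aux_k P c E hP0 hE0 hk
  obtain ⟨K, hK⟩ : ∃ K, K = 8 / 27 * P ^ 2 / Q := ⟨_, rfl⟩
  obtain ⟨al, hal⟩ : ∃ al, al = 2 * P * Dl / (E * Q) := ⟨_, rfl⟩
  obtain ⟨be, hbe⟩ : ∃ be, be = Dl * D * (4 * P ^ 2 - 2 * E) / (E ^ 2 * Q) := ⟨_, rfl⟩
  rw [← hK]
  have hK0 : 0 ≤ K := by rw [hK]; positivity
  have hal2 : al ≤ 2 / P := by
    rw [hal, div_le_div_iff₀ (by positivity) hP0]
    have : 2 * P * Dl * P = 2 * (D + 4 * Q) * Dl := by rw [← hPD]; ring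
    rw [this, hE]
    have := mul_le_mul_of_nonneg_left hDQ hD0
    linarith
  have c1 : al * s ^ 2 ≤ K := by
    refine (mul_le_mul_of_nonneg_right hal2 (sq_nonneg s)).trans ?_
    rw [hK, div_mul_eq_mul_div, div_le_div_iff₀ hP0 hQ0, hP, hQ]
    exact aux_amgm _ _ (sq_nonneg r) (sq_nonneg s)
  have c2 : al * r ^ 2 ≤ K := by
    refine (mul_le_mul_of_nonneg_right hal2 (sq_nonneg r)).trans ?_
    rw [hK, div_mul_eq_mul_div, div_le_div_iff₀ hP0 hQ0, hP, hQ, add_comm, mul_comm (r ^ 2)]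
    exact aux_amgm _ _ (sq_nonneg s) (sq_nonneg r)
  have c3 : be ≤ K := by
    rw [hbe, hK, div_le_div_iff₀ (by positivity) hQ0, hPD, hE]
    exact aux_c3 D Q Dl hD0 hQ0.le hD.le
  have c4 : be + al * (r ^ 2 + s ^ 2) ≤ 2 * K := by
    rw [← hP]
    have e : be + al * P = Dl * (D * (4 * P ^ 2 - 2 * E) + 2 * P ^ 2 * E) / (E ^ 2 * Q) := by
      rw [hbe, hal]; field_simp
    have e' : 2 * K = 16 / 27 * P ^ 2 * E ^ 2 / (E ^ 2 * Q) := by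
      rw [hK]; field_simp; ring
    rw [e, e']
    apply div_le_div_of_nonneg_right _ (by positivity)
    rw [hPD, hE]
    exact aux_c4 D Q Dl hD0 hQ0.le hD.le
  have q := quad al be K r s (r * A1) A2 (s * B1) B2 hK0 c1 c2 c3 c4
  rw [← ha, ← hb] at q
  have b1 : n1 ^ 2 ≤ ((A1 * B2 + B1 * A2) ^ 2 * (P + 2 * c) + (A1 * B1) ^ 2 * D) /
      ((P + 2 * c) ^ 2 * Dl) := by
    rw [le_div_iff₀ (by positivity), ← mul_assoc]; exact h1
  have b2 : n2 ^ 2 ≤ ((A1 * B2 + B1 * A2) ^ 2 * (P - 2 * c) + (A1 * B1) ^ 2 * D) /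
      ((P - 2 * c) ^ 2 * Dl) := by
    rw [le_div_iff₀ (by positivity), ← mul_assoc]; exact h2
  have e : ((A1 * B2 + B1 * A2) ^ 2 * (P + 2 * c) + (A1 * B1) ^ 2 * D) / ((P + 2 * c) ^ 2 * Dl) +
      ((A1 * B2 + B1 * A2) ^ 2 * (P - 2 * c) + (A1 * B1) ^ 2 * D) / ((P - 2 * c) ^ 2 * Dl) =
      (al * (s * (r * A1) * B2 + r * (s * B1) * A2) ^ 2 + be * ((r * A1) ^ 2 * (s * B1) ^ 2)) /
        Dl ^ 2 := by
    rw [hal, hbe, ← hk, hQ]
    field_simp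
    ring
  have f : (al * (s * (r * A1) * B2 + r * (s * B1) * A2) ^ 2 + be * ((r * A1) ^ 2 * (s * B1) ^ 2)) /
        Dl ^ 2 ≤ K * (na ^ 2 * nb ^ 2) := by
    rw [div_le_iff₀ (by positivity)]
    refine q.trans (le_of_eq (by ring))
  exact (add_le_add b1 b2).trans (e ▸ f)

/-- the constant `4 / (3 √3)` -/
noncomputable def kap : ℝ := 4 / (3 * Real.sqrt 3)

lemma kap_pos : 0 < kap := by unfold kap; positivity
lemma kap_sq : kap ^ 2 = 16 / 27 := by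
  unfold kap
  rw [div_pow, mul_pow, Real.sq_sqrt (by norm_num)]; norm_num

/-- **Key lemma**: the two interactions `(l, m)` and `(l, -m)` together. -/
theorem key (l m : R3) (a b : V) (ha : dotc a l = 0) (hb : dotc b m = 0)
    (hl : 0 < nr l) (hm : 0 < nr m) :
    ‖proj (l + m) (sym l m a b)‖ / nr (l + m) +
      ‖proj (l + -m) (sym l (-m) a (cj b))‖ / nr (l + -m) ≤
      kap * ((nr l * ‖a‖) * (‖b‖ / nr m) + (‖a‖ / nr l) * (nr m * ‖b‖)) := by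
  have hl2 : 0 < sq3 l := by rw [← nr_sq]; positivity
  have hm2 : 0 < sq3 m := by rw [← nr_sq]; positivity
  have fa := frame_a l m a ha hl2
  have fb := frame_b l m b hb hm2
  have hRHS : 0 ≤ kap * ((nr l * ‖a‖) * (‖b‖ / nr m) + (‖a‖ / nr l) * (nr m * ‖b‖)) := by
    have := kap_pos; positivity
  by_cases hD : sq3 (cr3 l m) = 0
  · rw [hD, mul_zero] at fa fb
    have z1 : dotc a m = 0 := by
      have : (nr l * ‖dotc a m‖) ^ 2 = 0 := by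
        linarith [sq_nonneg (nr l * ‖dotc a m‖), sq_nonneg ‖dotc a (cr3 l m)‖]
      simpa [hl.ne'] using this
    have z2 : dotc b l = 0 := by
      have : (nr m * ‖dotc b l‖) ^ 2 = 0 := by
        linarith [sq_nonneg (nr m * ‖dotc b l‖), sq_nonneg ‖dotc b (cr3 l m)‖]
      simpa [hm.ne'] using this
    simpa [sym, z1, z2, dotc_negr, dotc_cj, proj, dotc_zero] using hRHS
  have hD0 : 0 < sq3 (cr3 l m) := lt_of_le_of_ne (sq3_nonneg _) (Ne.symm hD)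
  have p1 := one_pair l m a b ha hb
  have p2 := one_pair l (-m) a (cj b) ha (by rw [dotc_negr, dotc_cj, hb]; simp)
  have e : cr3 l (-m) = -cr3 l m := by funext i; fin_cases i <;> simp [cr3] <;> ring
  have e2 : sq3 (-cr3 l m) = sq3 (cr3 l m) := by simp [sq3]
  have e3 : sq3 (-m) = sq3 m := by simp [sq3]
  simp only [e, e2, e3, dotc_negr, dotc_cj, norm_neg, RCLike.norm_conj] at p2
  have s1 : sq3 (l + m) = nr l ^ 2 + nr m ^ 2 + 2 * dot3 l m := by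
    rw [nr_sq, nr_sq]; simp [sq3, dot3]; ring
  have s2 : sq3 (l + -m) = nr l ^ 2 + nr m ^ 2 - 2 * dot3 l m := by
    rw [nr_sq, nr_sq]; simp [sq3, dot3]; ring
  have s3 : sq3 (cr3 l m) = nr l ^ 2 * nr m ^ 2 - dot3 l m ^ 2 := by
    rw [nr_sq, nr_sq]; simp [sq3, dot3, cr3]; ring
  have dv : ∀ (x : ℝ) (k : R3), (x / nr k) ^ 2 * sq3 k ^ 2 = x ^ 2 * sq3 k := by
    intro x k
    by_cases hk : sq3 k = 0
    · simp [hk]
    · rw [div_pow, nr_sq]; field_simp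
  have R := real_key (nr l) (nr m) (dot3 l m) (sq3 (cr3 l m))
    (‖proj (l + m) (sym l m a b)‖ / nr (l + m))
    (‖proj (l + -m) (sym l (-m) a (cj b))‖ / nr (l + -m))
    ‖dotc a m‖ ‖dotc a (cr3 l m)‖ ‖dotc b l‖ ‖dotc b (cr3 l m)‖ ‖a‖ ‖b‖ hl hm hD0 s3
    (by rw [← s1, dv, nr_sq, nr_sq]; exact p1) (by rw [← s2, dv, nr_sq, nr_sq]; exact p2) fa fb
  set n1 := ‖proj (l + m) (sym l m a b)‖ / nr (l + m)
  set n2 := ‖proj (l + -m) (sym l (-m) a (cj b))‖ / nr (l + -m)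
  have e4 : (kap * ((nr l * ‖a‖) * (‖b‖ / nr m) + (‖a‖ / nr l) * (nr m * ‖b‖))) ^ 2 =
      2 * (8 / 27 * (nr l ^ 2 + nr m ^ 2) ^ 2 / (nr l ^ 2 * nr m ^ 2) * (‖a‖ ^ 2 * ‖b‖ ^ 2)) := by
    rw [mul_pow, kap_sq]; field_simp; ring
  have e5 : (n1 + n2) ^ 2 ≤
      (kap * ((nr l * ‖a‖) * (‖b‖ / nr m) + (‖a‖ / nr l) * (nr m * ‖b‖))) ^ 2 := by
    have : (n1 + n2) ^ 2 = 2 * (n1 ^ 2 + n2 ^ 2) - (n1 - n2) ^ 2 := by ring
    rw [e4, this]; linarith [sq_nonneg (n1 - n2)]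
  exact (le_abs_self _).trans (abs_le_of_sq_le_sq e5 hRHS)

end Pool.Agent.H730Z.NS
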