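import Pool.Agent.H730Z.NS.Sol
import Pool.Agent.H730Z.NS.Four

set_option autoImplicit false

namespace Pool.Agent.H730Z.NS

open Finset Complex NSDefs
open scoped ContDiff

/-- index of a lattice point -/
def sg (k : Fin 3 → ℤ) : M := (fun i => (k i).toNat, fun i => (-k i).toNat)

/-- lattice point of an index -/
def kp (p : M) : Fin 3 → ℤ := fun i => (p.1 i : ℤ) - p.2 i

lemma kp_sg (k : Fin 3 → ℤ) : kp (sg k) = k := by
  funext i; simp only [kp, sg]; omega

lemma sg_inj : Function.Injective sg := Function.LeftInverse.injective kp_sg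

lemma sg_neg (k : Fin 3 → ℤ) : sg (-k) = (sg k).swap := by
  simp [sg]

lemma kp_swap (p : M) : kp p.swap = -kp p := by
  funext i; simp [kp]

lemma xi_eq (p : M) : xi p = fq (kp p) := by
  funext i; simp [xi, fq, kp]

lemma fq_eq_zero {k : Fin 3 → ℤ} (h : fq k = 0) : k = 0 := by
  funext i
  have := congrFun h i
  simp only [fq, Pi.zero_apply, mul_eq_zero, Int.cast_eq_zero] at this
  rcases this with (h | h) | h
  · norm_num at h
  · exact absurd h Real.pi_ne_zero
  · exact h

lemma ee_sg (k : Fin 3 → ℤ) (x : R3) : ee (sg k) x = ch (-k) x := by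
  rw [ee, ch, xi_eq, kp_sg]
  congr 1
  simp [dot3, fq, Fin.sum_univ_three]; ring

/-- coefficient vector -/
noncomputable def cv (u0 : R3 → R3) (k : Fin 3 → ℤ) : V := WithLp.toLp 2 (fun i => coeff u0 k i)

open Classical in
/-- initial data of the graded expansion -/
noncomputable def dd (u0 : R3 → R3) (p : M) : V :=
  if p = sg (kp p) ∧ kp p ≠ 0 then cv u0 (kp p) else 0

lemma dd_sg (u0 : R3 → R3) (k : Fin 3 → ℤ) : dd u0 (sg k) = if k = 0 then 0 else cv u0 k := by
  unfold dd
  rw [kp_sg]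
  by_cases h : k = 0 <;> simp [h]

lemma dd_off (u0 : R3 → R3) {p : M} (h : p ∉ Set.range sg) : dd u0 p = 0 := by
  unfold dd
  rw [if_neg]
  rintro ⟨h1, _⟩
  exact h ⟨_, h1.symm⟩

lemma coeff_eq (u0 : R3 → R3) (k : Fin 3 → ℤ) (i : Fin 3) :
    coeff u0 k i = cf (fun x => (u0 x i : ℂ)) k := rfl

lemma norm_le_sum (w : V) : ‖w‖ ≤ ‖w 0‖ + ‖w 1‖ + ‖w 2‖ := by
  apply abs_le_of_sq_le_sq' _ (by positivity) |>.2
  rw [norm_sq_V]
  nlinarith [mul_nonneg (norm_nonneg (w 0)) (norm_nonneg (w 1)),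
    mul_nonneg (norm_nonneg (w 0)) (norm_nonneg (w 2)),
    mul_nonneg (norm_nonneg (w 1)) (norm_nonneg (w 2))]

theorem main {ν : ℝ} (hν : 0 < ν) (u0 : R3 → R3) (hsm : ContDiff ℝ ∞ u0)
    (hper : ∀ x j, u0 (x + Pi.single j 1) = u0 x)
    (hdiv : ∀ x, ∑ i, pd i (fun y => u0 y i) x = 0)
    (hsmall : leiLin u0 < 3 * Real.sqrt 3 / 2 * ν) : ∃ u p, IsAdmissible ν u0 u p := by
  have hsi : ∀ i, ContDiff ℝ ∞ (fun x => u0 x i) := fun i => contDiff_pi.1 hsm i
  have hSP : ∀ i, SP (fun x => (u0 x i : ℂ)) := fun i =>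
    ⟨Complex.ofRealCLM.contDiff.comp (hsi i), fun x j => by simp only [hper]⟩
  have hpd : ∀ i x, pdc i (fun x => (u0 x i : ℂ)) x = (pd i (fun y => u0 y i) x : ℂ) := by
    intro i x
    have := (Complex.ofRealCLM.hasFDerivAt.comp x
      (((hsi i).differentiable (by simp)) x).hasFDerivAt).fderiv
    unfold pdc pd
    rw [show (fun x => (u0 x i : ℂ)) = Complex.ofRealCLM ∘ fun x => u0 x i from rfl, this]
    simp
  have hcdiv : ∀ k, dotc (cv u0 k) (fq k) = 0 := by
    intro k
    have int : ∀ i, MeasureTheory.IntegrableOn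
        (fun x => ch k x * pdc i (fun x => (u0 x i : ℂ)) x) (Set.Icc (0 : R3) 1) := fun i =>
      ((ch_cont k).mul ((hSP i).pdc i).1.continuous).continuousOn.integrableOn_compact isCompact_Icc
    have h0 : ∑ i, cf (pdc i (fun x => (u0 x i : ℂ))) k = 0 := by
      unfold cf
      rw [← MeasureTheory.integral_finsetSum _ (fun i _ => int i)]
      simp only [← mul_sum, hpd, ← ofReal_sum, hdiv, ofReal_zero, mul_zero,
        MeasureTheory.integral_zero]
    simp only [cf_pdc (hSP _), Fin.sum_univ_three] at h0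
    simp only [dotc, cv, coeff_eq]
    linear_combination (-I) * h0 + (cf (fun x => (u0 x 0 : ℂ)) k * fq k 0 +
      cf (fun x => (u0 x 1 : ℂ)) k * fq k 1 + cf (fun x => (u0 x 2 : ℂ)) k * fq k 2) * I_mul_I
  have hcj : ∀ k, cv u0 (-k) = cj (cv u0 k) := by
    intro k; ext i
    simp only [cv, cj, coeff_eq]
    exact cf_conj k
  let U : R3 := fun i => (coeff u0 0 i).re
  have H : Data ν (lamU ν U) (dd u0) := by
    refine ⟨hν, fun p => by simp [lamU], fun p => ?_, fun p hp => ?_, fun p => ?_, fun p => ?_⟩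
    · simp [lamU, xi_swap, sq3, dot3]; ring
    · rw [xi_eq] at hp
      simp [dd, fq_eq_zero hp]
    · unfold dd
      split_ifs
      · rw [xi_eq]; exact hcdiv _
      · exact dotc_zero _
    · unfold dd
      rw [kp_swap, sg_neg, hcj]
      have : (p.swap = (sg (kp p)).swap ∧ -kp p ≠ 0) ↔ (p = sg (kp p) ∧ kp p ≠ 0) := by
        rw [Prod.swap_inj, neg_ne_zero]
      simp only [this]
      split_ifs
      · rfl
      · ext j; simp [cj]
  have hcs : ∀ s : ℕ, Summable (fun k => (1 + nr (fq k)) ^ s * ‖cv u0 k‖) := by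
    intro s
    refine Summable.of_nonneg_of_le (fun k => by have := nr_nonneg (fq k); positivity)
      (fun k => ?_) (((cf_summable (hSP 0) s).add (cf_summable (hSP 1) s)).add
        (cf_summable (hSP 2) s))
    have := nr_nonneg (fq k)
    rw [← mul_add, ← mul_add]
    exact mul_le_mul_of_nonneg_left (norm_le_sum _) (by positivity)
  have hd : ∀ s : ℕ, Summable (fun p => rr p ^ s * ‖dd u0 p‖) := by
    intro s
    rw [← sg_inj.summable_iff (fun p hp => by simp [dd_off u0 hp])]
    refine Summable.of_nonneg_of_le (fun k => ?_) (fun k => ?_) (hcs s)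
    · have := rr_nonneg (sg k)
      simp only [Function.comp]; positivity
    · simp only [Function.comp, dd_sg, rr, xi_eq, kp_sg]
      have := nr_nonneg (fq k)
      split_ifs
      · simp only [norm_zero, mul_zero]; positivity
      · gcongr; linarith
  have hX0 : ∀ D : Finset M, ∑ p ∈ D, (rr p)⁻¹ * ‖dd u0 p‖ ≤ leiLin u0 := by
    intro D
    have hnn : ∀ p, 0 ≤ (rr p)⁻¹ * ‖dd u0 p‖ := fun p => by have := rr_nonneg p; positivity
    have hsum : Summable (fun p => (rr p)⁻¹ * ‖dd u0 p‖) := by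
      refine Summable.of_nonneg_of_le hnn (fun p => ?_) (hd 0)
      by_cases h : xi p = 0
      · simp [H.mean p h]
      · rw [pow_zero]
        exact mul_le_mul_of_nonneg_right (inv_le_one_of_one_le₀ (one_le_rr h)) (norm_nonneg _)
    refine (hsum.sum_le_tsum D (fun p _ => hnn p)).trans (le_of_eq ?_)
    have hinj : Function.Injective (fun k : {k : Fin 3 → ℤ // k ≠ 0} => sg k.1) :=
      sg_inj.comp Subtype.val_injective
    rw [← hinj.tsum_eq]
    · unfold leiLin
      refine tsum_congr (fun k => ?_)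
      rw [dd_sg, if_neg k.2, rr, xi_eq, kp_sg, div_eq_inv_mul, EuclideanSpace.norm_eq]
      congr 2
      unfold nr
      have : sq3 (fq k.1) = (2 * Real.pi) ^ 2 * ∑ j, ((k.1 j : ℝ)) ^ 2 := by
        simp [sq3, fq, Fin.sum_univ_three]; ring
      rw [this, Real.sqrt_mul (by positivity), Real.sqrt_sq (by positivity)]
    · intro p hp
      by_contra hc
      apply hp
      unfold dd
      simp only
      rw [if_neg]
      · simp
      · rintro ⟨h1, h2⟩
        exact hc ⟨⟨kp p, h2⟩, h1.symm⟩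
  have hs : kap / 2 * leiLin u0 < ν := by
    have h3 : 0 < Real.sqrt 3 := by positivity
    have : kap / 2 * (3 * Real.sqrt 3 / 2 * ν) = ν := by unfold kap; field_simp; ring
    rw [← this]
    exact mul_lt_mul_of_pos_left hsmall (half_pos kap_pos)
  refine exists_sol H hX0 hs hd u0 (fun x i => ?_)
  have h1 := cf_hasSum (hSP i) x
  have h2 : HasSum (fun k : Fin 3 → ℤ => if k = 0 then coeff u0 0 i else 0) (coeff u0 0 i) :=
    hasSum_ite_eq 0 _
  have h3 : HasSum (fun p => dd u0 p i * ee p x) ((u0 x i : ℂ) - coeff u0 0 i) := by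
    rw [← sg_inj.hasSum_iff (fun p hp => by simp [dd_off u0 hp])]
    refine (h1.sub h2).congr_fun (fun k => ?_)
    simp only [Function.comp, dd_sg, ee_sg]
    split_ifs with h
    · simp [h, ch, coeff_eq]
    · simp [cv, coeff_eq]
  rw [h3.tsum_eq]
  simp [U]

end Pool.Agent.H730Z.NS
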