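import Pool.Agent.H730Z.NS.Syn
import Pool.Agent.H730Z.NS.Defs

set_option autoImplicit false

namespace Pool.Agent.H730Z.NS

open Finset Complex
open scoped ContDiff

/-- the linear symbol: heat plus transport by the mean -/
noncomputable def lamU (ν : ℝ) (U : R3) (p : M) : ℂ := (ν * sq3 (xi p) : ℝ) + I * (dot3 U (xi p) : ℝ)

lemma one_le_rr {p : M} (h : xi p ≠ 0) : 1 ≤ rr p := by
  obtain ⟨i, hi⟩ := Function.ne_iff.1 h
  refine le_trans ?_ (abs_le_nr (xi p) i)
  have h1 : ((p.1 i : ℤ) - (p.2 i : ℤ)) ≠ 0 := by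
    intro h0
    apply hi
    have : (p.1 i : ℝ) - p.2 i = 0 := by exact_mod_cast h0
    simp [xi, this]
  have h2 : (1 : ℝ) ≤ |(p.1 i : ℝ) - p.2 i| := by exact_mod_cast Int.one_le_abs h1
  rw [xi, abs_mul, abs_of_pos (by positivity : 0 < 2 * Real.pi)]
  nlinarith [Real.pi_gt_three]

lemma mult_lam (ν : ℝ) (hν : 0 ≤ ν) (U : R3) : Mult (fun p => -lamU ν U p) := by
  refine ⟨ν + nr U, 2, add_nonneg hν (nr_nonneg U), fun p => ?_⟩
  have h1 : |dot3 U (xi p)| ≤ nr U * rr p := by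
    have := norm_dotc_le (ofR U) (xi p)
    rwa [dotc_ofR, norm_real, Real.norm_eq_abs, ← nr_eq] at this
  have hp := rr_nonneg p
  have hU := nr_nonneg U
  rw [norm_neg, lamU]
  refine (norm_add_le _ _).trans ?_
  rw [norm_mul, norm_I, one_mul, norm_real, norm_real, Real.norm_eq_abs, Real.norm_eq_abs,
    abs_of_nonneg (mul_nonneg hν (sq3_nonneg _)), ← nr_sq]
  change ν * rr p ^ 2 + _ ≤ _
  nlinarith [mul_nonneg hν hp, mul_nonneg hU hp, mul_nonneg hU (sq_nonneg (rr p))]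

lemma mult_pr (j : Fin 3) : Mult (fun p => I * xi p j / (sq3 (xi p) : ℝ)) := by
  refine ⟨1, 0, zero_le_one, fun p => ?_⟩
  by_cases h : xi p = 0
  · simp [h]
  have h1 := one_le_rr h
  have h2 := abs_le_nr (xi p) j
  rw [norm_div, norm_mul, norm_I, one_mul, norm_real, norm_real, Real.norm_eq_abs,
    Real.norm_eq_abs, abs_of_nonneg (sq3_nonneg _), ← nr_sq, pow_zero, mul_one]
  change _ / rr p ^ 2 ≤ 1
  rw [div_le_one (by positivity)]
  change _ ≤ rr p at h2
  nlinarith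

lemma mult_neg : Mult (fun _ => -1) := ⟨1, 0, zero_le_one, fun p => by simp⟩

/-- components -/
noncomputable def co (lam : M → ℂ) (d : M → V) (i : Fin 3) : M → ℝ → ℂ := fun p t => uu lam d p t i

/-- Fourier side of the convection term -/
noncomputable def NN (lam : M → ℂ) (d : M → V) (i : Fin 3) : M → ℝ → ℂ := fun p t =>
  conv (co lam d 0) (dx 0 (co lam d i)) p t + conv (co lam d 1) (dx 1 (co lam d i)) p t +
    conv (co lam d 2) (dx 2 (co lam d i)) p t

/-- Fourier side of the pressure -/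
noncomputable def PP (lam : M → ℂ) (d : M → V) : M → ℝ → ℂ := fun p t =>
  (I * xi p 0 / (sq3 (xi p) : ℝ)) * NN lam d 0 p t + (I * xi p 1 / (sq3 (xi p) : ℝ)) * NN lam d 1 p t +
    (I * xi p 2 / (sq3 (xi p) : ℝ)) * NN lam d 2 p t

lemma sum_anti_comm (p : M) (f : M × M → ℂ) : ∑ q ∈ anti p, f (q.2, q.1) = ∑ q ∈ anti p, f q := by
  refine sum_bij' (fun q _ => q.swap) (fun q _ => q.swap) ?_ ?_ ?_ ?_ ?_
  · intro q hq; rw [mem_anti] at hq ⊢; rw [← hq]; exact add_comm _ _
  · intro q hq; rw [mem_anti] at hq ⊢; rw [← hq]; exact add_comm _ _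
  · intro q _; rfl
  · intro q _; rfl
  · intro q _; rfl

lemma sum_sym (lam : M → ℂ) (d : M → V) (p : M) (t : ℝ) (j : Fin 3) :
    ∑ q ∈ anti p, sym (xi q.1) (xi q.2) (uu lam d q.1 t) (uu lam d q.2 t) j =
      -2 * I * NN lam d j p t := by
  have e1 : NN lam d j p t = I * ∑ q ∈ anti p, dotc (uu lam d q.1 t) (xi q.2) * uu lam d q.2 t j := by
    simp only [NN, conv, co, dx, ← sum_add_distrib, mul_sum, dotc]
    exact sum_congr rfl (fun q _ => by ring)
  have e2 := sum_anti_comm p (fun q => dotc (uu lam d q.1 t) (xi q.2) * uu lam d q.2 t j)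
  simp only [sym, PiLp.add_apply, PiLp.smul_apply, smul_eq_mul, sum_add_distrib]
  simp only at e2
  rw [e2, e1]
  linear_combination (2 * ∑ q ∈ anti p, dotc (uu lam d q.1 t) (xi q.2) * uu lam d q.2 t j) * I_mul_I

lemma FF_comp (lam : M → ℂ) (d : M → V) (p : M) (t : ℝ) (i : Fin 3) :
    FF lam d p t i = -NN lam d i p t - dx i (PP lam d) p t := by
  have e : FF lam d p t i = ∑ q ∈ anti p, (-(I / 2)) *
      (sym (xi q.1) (xi q.2) (uu lam d q.1 t) (uu lam d q.2 t) i -
        (sym (xi q.1) (xi q.2) (uu lam d q.1 t) (uu lam d q.2 t) 0 * xi p 0 +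
          sym (xi q.1) (xi q.2) (uu lam d q.1 t) (uu lam d q.2 t) 1 * xi p 1 +
          sym (xi q.1) (xi q.2) (uu lam d q.1 t) (uu lam d q.2 t) 2 * xi p 2) /
            (sq3 (xi p) : ℝ) * xi p i) := by
    simp only [FF, WithLp.ofLp_sum, Finset.sum_apply]
    refine sum_congr rfl (fun q hq => ?_)
    rw [mem_anti] at hq
    rw [bil, ← xi_add, hq]
    simp [proj, dotc, ofR]
  rw [e, ← mul_sum, sum_sub_distrib, ← sum_mul, ← sum_div, sum_add_distrib, sum_add_distrib,
    ← sum_mul, ← sum_mul, ← sum_mul, sum_sym, sum_sym, sum_sym, sum_sym]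
  simp only [dx, PP]
  linear_combination (NN lam d i p t) * I_mul_I

variable {ν : ℝ} {U : R3} {d : M → V}

lemma co_deriv {lam : M → ℂ} (h0 : d 0 = 0) (i : Fin 3) (p : M) (t : ℝ) :
    HasDerivAt (co lam d i p) (-lam p * co lam d i p t + (-1) * NN lam d i p t +
      (-1) * dx i (PP lam d) p t) t := by
  have := ((EuclideanSpace.proj i : V →L[ℂ] ℂ).restrictScalars ℝ).hasFDerivAt.comp_hasDerivAt t
    (uu_deriv (lam := lam) h0 p t)
  refine HasDerivAt.congr_deriv this ?_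
  simp [FF_comp, co]; ring

lemma AA_NN {lam : M → ℂ} {j : ℕ} (h : ∀ i, AA j (co lam d i)) (i : Fin 3) : AA j (NN lam d i) :=
  (((h 0).conv ((h i).dx 0)).add ((h 1).conv ((h i).dx 1))).add ((h 2).conv ((h i).dx 2))

lemma AA_PP {lam : M → ℂ} {j : ℕ} (h : ∀ i, AA j (co lam d i)) : AA j (PP lam d) :=
  (((AA_NN h 0).mul (mult_pr 0)).add ((AA_NN h 1).mul (mult_pr 1))).add
    ((AA_NN h 2).mul (mult_pr 2))

lemma AA_co (H : Data ν (lamU ν U) d) (h : ∀ i, A0 (co (lamU ν U) d i)) (j : ℕ) :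
    ∀ i, AA j (co (lamU ν U) d i) := by
  induction j with
  | zero => exact h
  | succ j ih =>
    intro i
    exact ⟨h i, _, (((ih i).mul (mult_lam ν H.pos.le U)).add ((AA_NN ih i).mul mult_neg)).add
      (((AA_PP ih).dx i).mul mult_neg), co_deriv H.h0 i⟩

lemma A0_co {lam : M → ℂ} (H : Data ν lam d) {X0 : ℝ}
    (hX0 : ∀ D : Finset M, ∑ p ∈ D, (rr p)⁻¹ * ‖d p‖ ≤ X0) (hs : kap / 2 * X0 < ν)
    (hd : ∀ s : ℕ, Summable (fun p => rr p ^ s * ‖d p‖)) (i : Fin 3) : A0 (co lam d i) := by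
  refine ⟨fun p => continuous_iff_continuousAt.2 (fun t => (co_deriv H.h0 i p t).continuousAt),
    fun s T hT => ?_⟩
  obtain ⟨v, hv, h1⟩ := majorant H hX0 hs hd 0 T hT
  obtain ⟨w, hw, h2⟩ := majorant H hX0 hs hd s T hT
  refine ⟨fun p => 2 ^ (s - 1) * (v p + w p), (hv.add hw).mul_left _, fun p t ht => ?_⟩
  have hp := rr_nonneg p
  have a := add_pow_le zero_le_one hp s
  have b : ‖co lam d i p t‖ ≤ ‖uu lam d p t‖ := PiLp.norm_apply_le _ _
  have c := h1 p t ht
  have e := h2 p t ht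
  rw [pow_zero, one_mul] at c
  rw [one_pow] at a
  calc (1 + rr p) ^ s * ‖co lam d i p t‖ ≤ 2 ^ (s - 1) * (1 + rr p ^ s) * ‖uu lam d p t‖ := by
        gcongr
    _ = 2 ^ (s - 1) * (‖uu lam d p t‖ + rr p ^ s * ‖uu lam d p t‖) := by ring
    _ ≤ _ := mul_le_mul_of_nonneg_left (add_le_add c e) (by positivity)

open NSDefs in
lemma pd_syn {a : M → ℝ → ℂ} (ha : AA 1 a) (c : ℝ) {t : ℝ} (ht : 0 ≤ t) (j : Fin 3) :
    pd j (fun y => c + (syn a (y, t)).re) = fun x => (syn (dx j a) (x, t)).re := by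
  funext x
  obtain ⟨L, h1, h2⟩ := syn_dx ha x ht
  have := ((Complex.reCLM.hasFDerivAt.comp x h1).const_add c).fderiv
  unfold pd
  rw [show (fun y => c + (syn a (y, t)).re) =
    fun y => c + (Complex.reCLM ∘ fun x => syn a (x, t)) y from rfl, this]
  simp [h2]

open NSDefs in
lemma pd_syn0 {a : M → ℝ → ℂ} (ha : AA 1 a) {t : ℝ} (ht : 0 ≤ t) (j : Fin 3) :
    pd j (fun y => (syn a (y, t)).re) = fun x => (syn (dx j a) (x, t)).re := by
  simpa using pd_syn ha 0 ht j

open NSDefs in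
/-- from Fourier data to an admissible solution -/
theorem exists_sol (H : Data ν (lamU ν U) d) {X0 : ℝ}
    (hX0 : ∀ D : Finset M, ∑ p ∈ D, (rr p)⁻¹ * ‖d p‖ ≤ X0) (hs : kap / 2 * X0 < ν)
    (hd : ∀ s : ℕ, Summable (fun p => rr p ^ s * ‖d p‖)) (u0 : R3 → R3)
    (hu0 : ∀ x i, u0 x i = U i + (∑' p, d p i * ee p x).re) :
    ∃ u p, IsAdmissible ν u0 u p := by
  have hA := AA_co H (A0_co H hX0 hs hd)
  have hml := mult_lam ν H.pos.le U
  obtain ⟨lam, hlam⟩ : ∃ lam, lam = lamU ν U := ⟨_, rfl⟩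
  rw [← hlam] at H hA hml
  have sm : ∀ a : M → ℝ → ℂ, (∀ j, AA j a) → ContDiffOn ℝ ∞ (fun z => (syn a z).re) HS := by
    intro a ha
    rw [contDiffOn_infty]
    intro n
    exact Complex.reCLM.contDiff.comp_contDiffOn (ha n).smooth
  have hreal : ∀ i z, ((syn (co lam d i) z).re : ℂ) = syn (co lam d i) z := by
    intro i z
    apply syn_real
    intro p t
    simp only [co, uu_real H.h0 H.lconj H.real, cj]
  refine ⟨fun z i => U i + (syn (co lam d i) z).re, fun z => (syn (PP lam d) z).re,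
    ?_, ?_, ?_, ?_, ?_, ?_, ?_⟩
  · exact contDiffOn_pi.2 (fun i => contDiffOn_const.add (sm _ (fun j => hA j i)))
  · exact sm _ (fun j => AA_PP (hA j))
  · intro x t j _; simp only [syn_periodic]
  · intro x t j _; simp only [syn_periodic]
  · intro x
    funext i
    simp only [hu0, syn, co, uu_init H.h0]
  · intro x t ht
    have P1 := fun i c j => pd_syn (hA 1 i) c ht j
    simp only [P1, Fin.sum_univ_three]
    have h := ((((hA 0 0).dx 0).a0.hasSum (z := (x, t)) ht).add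
      (((hA 0 1).dx 1).a0.hasSum (z := (x, t)) ht)).add (((hA 0 2).dx 2).a0.hasSum (z := (x, t)) ht)
    have h2 : syn (dx 0 (co lam d 0)) (x, t) + syn (dx 1 (co lam d 1)) (x, t) +
        syn (dx 2 (co lam d 2)) (x, t) = 0 := by
      refine h.unique ?_
      convert hasSum_zero using 2 with p
      have := uu_div (lam := lam) H.h0 H.div p t
      simp only [dotc] at this
      simp only [dx, co]
      linear_combination (I * ee p x) * this
    have := congrArg Complex.re h2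
    simpa using this
  · intro x t i ht
    have hder := co_deriv (lam := lam) H.h0 i
    have hA' : A0 (fun p t => -lam p * co lam d i p t + (-1) * NN lam d i p t +
        (-1) * dx i (PP lam d) p t) := ((((hA 0 i).mul hml).add
          ((AA_NN (hA 0) i).mul mult_neg)).add (((AA_PP (hA 0)).dx i).mul mult_neg)).a0
    have ht1 := syn_dt (hA 0 i).a0 hA' hder x ht
    have ht2 : derivWithin (fun s => U i + (syn (co lam d i) (x, s)).re) (Set.Ici 0) t =
        (syn (fun p t => -lam p * co lam d i p t + (-1) * NN lam d i p t +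
          (-1) * dx i (PP lam d) p t) (x, t)).re :=
      ((Complex.reCLM.hasFDerivAt.comp_hasDerivWithinAt t ht1).const_add (U i)).derivWithin
        (uniqueDiffOn_Ici 0 t ht)
    have P1 := fun i c j => pd_syn (hA 1 i) c ht j
    have P2 := fun i k j => pd_syn0 ((hA 1 i).dx k) ht j
    have P3 := fun j => pd_syn0 (AA_PP (hA 1)) ht j
    simp only [ht2, P1, P2, P3, Fin.sum_univ_three]
    have s0 := hA'.hasSum (z := (x, t)) ht
    have s1 : ∀ j, HasSum _ _ := fun j => ((hA 0 i).dx j).a0.hasSum (z := (x, t)) ht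
    have s2 : ∀ j, HasSum _ _ := fun j => (((hA 0 i).dx j).dx j).a0.hasSum (z := (x, t)) ht
    have s3 : ∀ j, HasSum _ _ := fun j =>
      ((hA 0 j).conv ((hA 0 i).dx j)).a0.hasSum (z := (x, t)) ht
    have s4 := ((AA_PP (hA 0)).dx i).a0.hasSum (z := (x, t)) ht
    have c3 : ∀ j, _ = _ := fun j => syn_conv (hA 0 j).a0 ((hA 0 i).dx j).a0 (z := (x, t)) ht
    have h := (((((((s0.add ((s1 0).mul_left (U 0 : ℂ))).add ((s1 1).mul_left (U 1 : ℂ))).add
      ((s1 2).mul_left (U 2 : ℂ))).add (s3 0)).add (s3 1)).add (s3 2)).sub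
      ((((s2 0).add (s2 1)).add (s2 2)).mul_left (ν : ℂ))).add s4
    have h2 := h.unique (a₂ := 0) (by
      convert hasSum_zero using 2 with p
      simp only [dx, NN, hlam, lamU, sq3, dot3]
      push_cast
      linear_combination (-(ν : ℂ) * ((xi p 0 : ℂ) ^ 2 + (xi p 1 : ℂ) ^ 2 + (xi p 2 : ℂ) ^ 2) *
        co (lamU ν U) d i p t * ee p x) * I_mul_I)
    rw [c3 0, c3 1, c3 2, ← hreal 0, ← hreal 1, ← hreal 2] at h2
    have := congrArg Complex.re h2
    simp only [add_re, sub_re, re_ofReal_mul, zero_re] at this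
    linarith

end Pool.Agent.H730Z.NS
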