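import Pool.Agent.H730Z.NS.Est

set_option autoImplicit false

namespace Pool.Agent.H730Z.NS

open Finset Complex Topology Filter

/-- rapidly decaying continuous coefficient families -/
def A0 (a : M → ℝ → ℂ) : Prop :=
  (∀ p, Continuous (a p)) ∧ ∀ (s : ℕ) (T : ℝ), 0 ≤ T → ∃ v : M → ℝ, Summable v ∧
    ∀ p, ∀ t ∈ Set.Icc 0 T, (1 + rr p) ^ s * ‖a p t‖ ≤ v p

/-- the same for `j` time derivatives -/
def AA : ℕ → (M → ℝ → ℂ) → Prop
  | 0, a => A0 a
  | j + 1, a => A0 a ∧ ∃ a', AA j a' ∧ ∀ p t, HasDerivAt (a p) (a' p t) t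

lemma AA.a0 : ∀ {j : ℕ} {a : M → ℝ → ℂ}, AA j a → A0 a
  | 0, _, h => h
  | _ + 1, _, h => h.1

lemma AA.mono : ∀ {j : ℕ} {a : M → ℝ → ℂ}, AA (j + 1) a → AA j a
  | 0, _, h => h.1
  | _ + 1, _, ⟨h1, a', h2, h3⟩ => ⟨h1, a', AA.mono h2, h3⟩

lemma A0.add {a b : M → ℝ → ℂ} (ha : A0 a) (hb : A0 b) : A0 (fun p t => a p t + b p t) := by
  refine ⟨fun p => (ha.1 p).add (hb.1 p), fun s T hT => ?_⟩
  obtain ⟨v, hv, h1⟩ := ha.2 s T hT
  obtain ⟨w, hw, h2⟩ := hb.2 s T hT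
  refine ⟨fun p => v p + w p, hv.add hw, fun p t ht => ?_⟩
  have := rr_nonneg p
  have h3 := mul_le_mul_of_nonneg_left (norm_add_le (a p t) (b p t))
    (show 0 ≤ (1 + rr p) ^ s by positivity)
  have := h1 p t ht
  have := h2 p t ht
  simp only
  linarith

lemma AA.add : ∀ {j : ℕ} {a b : M → ℝ → ℂ}, AA j a → AA j b → AA j (fun p t => a p t + b p t)
  | 0, _, _, ha, hb => A0.add ha hb
  | _ + 1, _, _, ⟨h1, a', h2, h3⟩, ⟨k1, b', k2, k3⟩ =>
    ⟨h1.add k1, fun p t => a' p t + b' p t, AA.add h2 k2, fun p t => (h3 p t).add (k3 p t)⟩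

/-- multipliers of polynomial growth -/
def Mult (μ : M → ℂ) : Prop := ∃ (C : ℝ) (n : ℕ), 0 ≤ C ∧ ∀ p, ‖μ p‖ ≤ C * (1 + rr p) ^ n

lemma A0.mul {a : M → ℝ → ℂ} {μ : M → ℂ} (hμ : Mult μ) (ha : A0 a) :
    A0 (fun p t => μ p * a p t) := by
  obtain ⟨C, n, hC, h⟩ := hμ
  refine ⟨fun p => (ha.1 p).const_mul _, fun s T hT => ?_⟩
  obtain ⟨v, hv, h1⟩ := ha.2 (s + n) T hT
  refine ⟨fun p => C * v p, hv.mul_left C, fun p t ht => ?_⟩
  have := rr_nonneg p
  rw [norm_mul]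
  calc (1 + rr p) ^ s * (‖μ p‖ * ‖a p t‖) ≤ (1 + rr p) ^ s * (C * (1 + rr p) ^ n * ‖a p t‖) := by
        gcongr; exact h p
    _ = C * ((1 + rr p) ^ (s + n) * ‖a p t‖) := by ring
    _ ≤ C * v p := mul_le_mul_of_nonneg_left (h1 p t ht) hC

lemma AA.mul {μ : M → ℂ} (hμ : Mult μ) :
    ∀ {j : ℕ} {a : M → ℝ → ℂ}, AA j a → AA j (fun p t => μ p * a p t)
  | 0, _, ha => A0.mul hμ ha
  | _ + 1, _, ⟨h1, a', h2, h3⟩ =>
    ⟨h1.mul hμ, fun p t => μ p * a' p t, AA.mul hμ h2, fun p t => (h3 p t).const_mul _⟩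

/-- convolution over the monoid -/
noncomputable def conv (a b : M → ℝ → ℂ) (p : M) (t : ℝ) : ℂ := ∑ q ∈ anti p, a q.1 t * b q.2 t

lemma A0.conv {a b : M → ℝ → ℂ} (ha : A0 a) (hb : A0 b) : A0 (conv a b) := by
  refine ⟨fun p => continuous_finsetSum _ (fun q _ => (ha.1 _).mul (hb.1 _)), fun s T hT => ?_⟩
  obtain ⟨v, hv, h1⟩ := ha.2 s T hT
  obtain ⟨w, hw, h2⟩ := hb.2 s T hT
  have hv0 : ∀ p, 0 ≤ v p := fun p => le_trans (by have := rr_nonneg p; positivity)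
    (h1 p 0 ⟨le_rfl, hT⟩)
  have hw0 : ∀ p, 0 ≤ w p := fun p => le_trans (by have := rr_nonneg p; positivity)
    (h2 p 0 ⟨le_rfl, hT⟩)
  refine ⟨fun p => ∑ q ∈ anti p, v q.1 * w q.2,
    summable_sum_mul_antidiagonal_of_summable_mul (hv.mul_of_nonneg hw hv0 hw0),
    fun p t ht => ?_⟩
  have hp := rr_nonneg p
  refine (mul_le_mul_of_nonneg_left (norm_sum_le _ _) (by positivity)).trans ?_
  rw [mul_sum]
  refine sum_le_sum (fun q hq => ?_)
  rw [mem_anti] at hq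
  have a1 := rr_nonneg q.1
  have a2 := rr_nonneg q.2
  have hb1 : 1 + rr p ≤ (1 + rr q.1) * (1 + rr q.2) := by
    have := rr_add_le q.1 q.2
    rw [hq] at this
    nlinarith [mul_nonneg a1 a2]
  rw [norm_mul]
  calc (1 + rr p) ^ s * (‖a q.1 t‖ * ‖b q.2 t‖)
      ≤ ((1 + rr q.1) * (1 + rr q.2)) ^ s * (‖a q.1 t‖ * ‖b q.2 t‖) := by gcongr
    _ = ((1 + rr q.1) ^ s * ‖a q.1 t‖) * ((1 + rr q.2) ^ s * ‖b q.2 t‖) := by rw [mul_pow]; ring
    _ ≤ v q.1 * w q.2 := mul_le_mul (h1 _ t ht) (h2 _ t ht) (by positivity) (hv0 _)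

lemma AA.conv : ∀ {j : ℕ} {a b : M → ℝ → ℂ}, AA j a → AA j b → AA j (conv a b)
  | 0, _, _, ha, hb => A0.conv ha hb
  | j + 1, a, b, ha, hb => by
    have ha' := ha.mono
    have hb' := hb.mono
    obtain ⟨h1, a', h2, h3⟩ := ha
    obtain ⟨k1, b', k2, k3⟩ := hb
    refine ⟨h1.conv k1, fun p t => NS.conv a' b p t + NS.conv a b' p t,
      (AA.conv h2 hb').add (AA.conv ha' k2), fun p t => ?_⟩
    unfold NS.conv
    simp only
    rw [← sum_add_distrib]
    exact HasDerivAt.fun_sum (fun q _ => (h3 q.1 t).mul (k3 q.2 t))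

lemma AA.congr {j : ℕ} {a b : M → ℝ → ℂ} (h : AA j a) (e : ∀ p t, b p t = a p t) : AA j b := by
  have : b = a := by funext p t; exact e p t
  rwa [this]

/-- exponentials -/
noncomputable def ee (p : M) (x : R3) : ℂ := cexp (I * (dot3 (xi p) x : ℝ))

lemma norm_ee (p : M) (x : R3) : ‖ee p x‖ = 1 := by
  rw [ee, mul_comm]; exact Complex.norm_exp_ofReal_mul_I _

lemma ee_add (p q : M) (x : R3) : ee (p + q) x = ee p x * ee q x := by
  rw [ee, ee, ee, ← Complex.exp_add, xi_add]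
  congr 1
  simp [dot3]; ring

lemma ee_swap (p : M) (x : R3) : ee p.swap x = (starRingEnd ℂ) (ee p x) := by
  rw [ee, ee, ← Complex.exp_conj, xi_swap]
  congr 1
  simp [dot3]; ring

lemma ee_periodic (p : M) (x : R3) (j : Fin 3) : ee p (x + Pi.single j 1) = ee p x := by
  have : I * (dot3 (xi p) (x + Pi.single j 1) : ℝ) =
      I * (dot3 (xi p) x : ℝ) + (((p.1 j : ℤ) - (p.2 j : ℤ) : ℤ) : ℂ) * (2 * Real.pi * I) := by
    fin_cases j <;> simp [dot3, xi] <;> ring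
  rw [ee, this, Complex.exp_add, Complex.exp_int_mul_two_pi_mul_I, mul_one, ee]

/-- space-time -/
abbrev ST := R3 × ℝ

/-- the closed half space -/
def HS : Set ST := Set.univ ×ˢ Set.Ici 0

/-- Fourier synthesis -/
noncomputable def syn (a : M → ℝ → ℂ) (z : ST) : ℂ := ∑' p, a p z.2 * ee p z.1

lemma A0.bound {a : M → ℝ → ℂ} (ha : A0 a) {T : ℝ} (hT : 0 ≤ T) : ∃ v : M → ℝ, Summable v ∧
    ∀ p, ∀ z : ST, z.2 ∈ Set.Icc 0 T → ‖a p z.2 * ee p z.1‖ ≤ v p := by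
  obtain ⟨v, hv, h⟩ := ha.2 0 T hT
  refine ⟨v, hv, fun p z hz => ?_⟩
  have := h p z.2 hz
  rwa [norm_mul, norm_ee, mul_one, ← one_mul ‖a p z.2‖, ← pow_zero (1 + rr p)]

lemma A0.summable_norm {a : M → ℝ → ℂ} (ha : A0 a) {z : ST} (hz : 0 ≤ z.2) :
    Summable (fun p => ‖a p z.2 * ee p z.1‖) := by
  obtain ⟨v, hv, h⟩ := ha.bound hz
  exact Summable.of_nonneg_of_le (fun _ => norm_nonneg _) (fun p => h p z ⟨hz, le_rfl⟩) hv

lemma A0.summable {a : M → ℝ → ℂ} (ha : A0 a) {z : ST} (hz : 0 ≤ z.2) :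
    Summable (fun p => a p z.2 * ee p z.1) := (ha.summable_norm hz).of_norm

lemma A0.hasSum {a : M → ℝ → ℂ} (ha : A0 a) {z : ST} (hz : 0 ≤ z.2) :
    HasSum (fun p => a p z.2 * ee p z.1) (syn a z) := (ha.summable hz).hasSum

lemma continuous_ee (p : M) : Continuous (ee p) := by
  unfold ee dot3; fun_prop

lemma strip_mem (z : ST) :
    (Set.univ ×ˢ Set.Icc 0 (z.2 + 1) : Set ST) ∈ 𝓝[HS] z := by
  have : {w : ST | w.2 < z.2 + 1} ∈ 𝓝 z :=
    (isOpen_lt continuous_snd continuous_const).mem_nhds (by simp)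
  filter_upwards [mem_nhdsWithin_of_mem_nhds this, self_mem_nhdsWithin] with w h1 h2
  exact ⟨trivial, h2.2, le_of_lt h1⟩

lemma A0.cont_strip {a : M → ℝ → ℂ} (ha : A0 a) {T : ℝ} (hT : 0 ≤ T) :
    ContinuousOn (syn a) (Set.univ ×ˢ Set.Icc 0 T) := by
  obtain ⟨v, hv, h⟩ := ha.bound hT
  exact continuousOn_tsum (fun p => (((ha.1 p).comp continuous_snd).mul
    ((continuous_ee p).comp continuous_fst)).continuousOn) hv (fun p z hz => h p z hz.2)

lemma A0.contOn {a : M → ℝ → ℂ} (ha : A0 a) : ContinuousOn (syn a) HS := by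
  intro z hz
  have h0 : 0 ≤ z.2 := hz.2
  exact ((ha.cont_strip (T := z.2 + 1) (by linarith)) z
    ⟨trivial, h0, by linarith⟩).mono_of_mem_nhdsWithin (strip_mem z)

/-- coordinate functionals -/
noncomputable def px (i : Fin 3) : ST →L[ℝ] ℂ :=
  Complex.ofRealCLM.comp ((ContinuousLinearMap.proj i).comp (ContinuousLinearMap.fst ℝ R3 ℝ))

noncomputable def pt : ST →L[ℝ] ℂ := Complex.ofRealCLM.comp (ContinuousLinearMap.snd ℝ R3 ℝ)

lemma px_apply (i : Fin 3) (z : ST) : px i z = z.1 i := rfl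
lemma pt_apply (z : ST) : pt z = z.2 := rfl

/-- spatial derivative on the Fourier side -/
noncomputable def dx (i : Fin 3) (a : M → ℝ → ℂ) : M → ℝ → ℂ := fun p t => (I * xi p i) * a p t

lemma abs_le_nr (l : R3) (i : Fin 3) : |l i| ≤ nr l := by
  apply abs_le_of_sq_le_sq _ (nr_nonneg l)
  rw [nr_sq, sq3]
  fin_cases i <;> simp <;> nlinarith [sq_nonneg (l 0), sq_nonneg (l 1), sq_nonneg (l 2)]

lemma mult_dx (i : Fin 3) : Mult (fun p => I * xi p i) := by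
  refine ⟨1, 1, zero_le_one, fun p => ?_⟩
  have := abs_le_nr (xi p) i
  simp only [norm_mul, norm_I, one_mul, norm_real, Real.norm_eq_abs, pow_one, rr]
  linarith

lemma AA.dx {j : ℕ} {a : M → ℝ → ℂ} (h : AA j a) (i : Fin 3) : AA j (dx i a) := h.mul (mult_dx i)
lemma A0.dx {a : M → ℝ → ℂ} (h : A0 a) (i : Fin 3) : A0 (dx i a) := h.mul (mult_dx i)

/-- total derivative of the synthesis -/
noncomputable def DD (a a' : M → ℝ → ℂ) (z : ST) : ST →L[ℝ] ℂ :=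
  syn (dx 0 a) z • px 0 + syn (dx 1 a) z • px 1 + syn (dx 2 a) z • px 2 + syn a' z • pt

lemma term_deriv {a a' : M → ℝ → ℂ} (h : ∀ p t, HasDerivAt (a p) (a' p t) t) (p : M) (z : ST) :
    HasFDerivAt (fun z : ST => a p z.2 * ee p z.1)
      ((dx 0 a p z.2 * ee p z.1) • px 0 + (dx 1 a p z.2 * ee p z.1) • px 1 +
        (dx 2 a p z.2 * ee p z.1) • px 2 + (a' p z.2 * ee p z.1) • pt) z := by
  have h1 : HasFDerivAt (fun z : ST => a p z.2) (a' p z.2 • pt) z := by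
    have := (h p z.2).hasFDerivAt.comp z (hasFDerivAt_snd (𝕜 := ℝ) (p := z))
    refine this.congr_fderiv ?_
    ext w <;> simp [pt_apply]
  let L : ST →L[ℝ] ℂ := (I * xi p 0) • px 0 + (I * xi p 1) • px 1 + (I * xi p 2) • px 2
  have h2 : HasFDerivAt (fun z : ST => ee p z.1) (ee p z.1 • L) z := by
    have e : (fun z : ST => ee p z.1) = fun z => cexp (L z) := by
      funext z; simp [ee, L, px_apply, dot3]; congr 1; ring
    have e2 : ee p z.1 = cexp (L z) := congrFun e z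
    rw [e, e2]
    exact L.hasFDerivAt.cexp
  refine (h1.mul h2).congr_fderiv ?_
  refine ContinuousLinearMap.ext (fun w => ?_)
  simp [L, px_apply, pt_apply, dx]
  ring

lemma norm_px (i : Fin 3) : ‖px i‖ ≤ 1 := by
  refine ContinuousLinearMap.opNorm_le_bound _ zero_le_one (fun z => ?_)
  rw [px_apply, norm_real, one_mul]
  exact (norm_le_pi_norm z.1 i).trans (norm_fst_le z)

lemma norm_pt : ‖pt‖ ≤ 1 := by
  refine ContinuousLinearMap.opNorm_le_bound _ zero_le_one (fun z => ?_)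
  rw [pt_apply, norm_real, one_mul]
  exact norm_snd_le z

lemma deriv_open {a a' : M → ℝ → ℂ} (ha : A0 a) (ha' : A0 a')
    (h : ∀ p t, HasDerivAt (a p) (a' p t) t) {T : ℝ} {z : ST}
    (hz : z ∈ (Set.univ ×ˢ Set.Ioo 0 T : Set ST)) : HasFDerivAt (syn a) (DD a a' z) z := by
  have hT : 0 ≤ T := (hz.2.1.trans hz.2.2).le
  obtain ⟨v0, s0, b0⟩ := (ha.dx 0).bound hT
  obtain ⟨v1, s1, b1⟩ := (ha.dx 1).bound hT
  obtain ⟨v2, s2, b2⟩ := (ha.dx 2).bound hT
  obtain ⟨v3, s3, b3⟩ := ha'.bound hT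
  have nb : ∀ (c : ℂ) (L : ST →L[ℝ] ℂ) (v : ℝ), ‖L‖ ≤ 1 → ‖c‖ ≤ v → ‖c • L‖ ≤ v := by
    intro c L v h1 h2
    rw [norm_smul]
    exact (mul_le_of_le_one_right (norm_nonneg _) h1).trans h2
  have key := hasFDerivAt_tsum_of_isPreconnected (((s0.add s1).add s2).add s3)
    (isOpen_univ.prod isOpen_Ioo)
    ((convex_univ.prod (convex_Ioo (0 : ℝ) T)).isPreconnected)
    (fun p z _ => term_deriv h p z) (fun p w hw => by
      have hw' : w.2 ∈ Set.Icc 0 T := Set.Ioo_subset_Icc_self hw.2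
      refine (norm_add_le _ _).trans (add_le_add ((norm_add_le _ _).trans (add_le_add
        ((norm_add_le _ _).trans (add_le_add ?_ ?_)) ?_)) ?_)
      · exact nb _ _ _ (norm_px 0) (b0 p w hw')
      · exact nb _ _ _ (norm_px 1) (b1 p w hw')
      · exact nb _ _ _ (norm_px 2) (b2 p w hw')
      · exact nb _ _ _ norm_pt (b3 p w hw')) hz (ha.summable hz.2.1.le) hz
  refine key.congr_fderiv ?_
  have h0 : 0 ≤ z.2 := hz.2.1.le
  exact (((((ha.dx 0).hasSum h0).smul_const (px 0)).add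
    (((ha.dx 1).hasSum h0).smul_const (px 1))).add
    (((ha.dx 2).hasSum h0).smul_const (px 2))).add ((ha'.hasSum h0).smul_const pt) |>.tsum_eq

lemma deriv_within {a a' : M → ℝ → ℂ} (ha : A0 a) (ha' : A0 a')
    (h : ∀ p t, HasDerivAt (a p) (a' p t) t) {z : ST} (hz : z ∈ HS) :
    HasFDerivWithinAt (syn a) (DD a a' z) HS z := by
  have h0 : 0 ≤ z.2 := hz.2
  have hT : (0 : ℝ) < z.2 + 1 := by linarith
  have hcl : closure (Set.univ ×ˢ Set.Ioo 0 (z.2 + 1) : Set ST) =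
      Set.univ ×ˢ Set.Icc 0 (z.2 + 1) := by
    rw [closure_prod_eq, closure_univ, closure_Ioo hT.ne]
  have hsub : (Set.univ ×ˢ Set.Ioo 0 (z.2 + 1) : Set ST) ⊆ HS := fun w hw => ⟨trivial, hw.2.1.le⟩
  have hDc : ContinuousOn (DD a a') HS :=
    ((((ha.dx 0).contOn.smul continuousOn_const).add
      ((ha.dx 1).contOn.smul continuousOn_const)).add
      ((ha.dx 2).contOn.smul continuousOn_const)).add (ha'.contOn.smul continuousOn_const)
  have key := hasFDerivWithinAt_closure_of_tendsto_fderiv (f := syn a)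
    (s := Set.univ ×ˢ Set.Ioo 0 (z.2 + 1)) (x := z) (f' := DD a a' z)
    (fun w hw => (deriv_open ha ha' h hw).differentiableAt.differentiableWithinAt)
    (convex_univ.prod (convex_Ioo _ _)) (isOpen_univ.prod isOpen_Ioo)
    (fun y hy => by
      rw [hcl] at hy
      exact (ha.contOn y ⟨trivial, hy.2.1⟩).mono hsub)
    (by
      refine Tendsto.congr' ?_ ((hDc z hz).mono hsub).tendsto
      filter_upwards [self_mem_nhdsWithin] with w hw
      exact (deriv_open ha ha' h hw).fderiv.symm)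
  rw [hcl] at key
  exact key.mono_of_mem_nhdsWithin (strip_mem z)

lemma uniqueDiffOn_HS : UniqueDiffOn ℝ HS := uniqueDiffOn_univ.prod (uniqueDiffOn_Ici 0)

lemma AA.smooth : ∀ {j : ℕ} {a : M → ℝ → ℂ}, AA j a → ContDiffOn ℝ j (syn a) HS
  | 0, _, ha => by simpa using A0.contOn ha
  | j + 1, a, ha => by
    have ha1 := ha.mono
    obtain ⟨h1, a', h2, h3⟩ := ha
    rw [Nat.cast_succ, contDiffOn_succ_iff_hasFDerivWithinAt_of_uniqueDiffOn uniqueDiffOn_HS]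
    refine ⟨by simp, DD a a', ?_, fun z hz => deriv_within h1 h2.a0 h3 hz⟩
    exact ((((AA.smooth (ha1.dx 0)).smul contDiffOn_const).add
      ((AA.smooth (ha1.dx 1)).smul contDiffOn_const)).add
      ((AA.smooth (ha1.dx 2)).smul contDiffOn_const)).add ((AA.smooth h2).smul contDiffOn_const)

lemma syn_conv {a b : M → ℝ → ℂ} (ha : A0 a) (hb : A0 b) {z : ST} (hz : 0 ≤ z.2) :
    syn (conv a b) z = syn a z * syn b z := by
  unfold syn
  have h3 := summable_mul_of_summable_norm (f := fun p => a p z.2 * ee p z.1)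
    (g := fun p => b p z.2 * ee p z.1) (ha.summable_norm hz) (hb.summable_norm hz)
  rw [Summable.tsum_mul_tsum_eq_tsum_sum_antidiagonal (f := fun p => a p z.2 * ee p z.1)
    (g := fun p => b p z.2 * ee p z.1) (ha.summable hz) (hb.summable hz) h3]
  refine tsum_congr (fun p => ?_)
  rw [conv, sum_mul]
  refine sum_congr rfl (fun q hq => ?_)
  rw [mem_anti] at hq
  rw [← hq, ee_add]; ring

lemma syn_real {a : M → ℝ → ℂ} (h : ∀ p t, a p.swap t = (starRingEnd ℂ) (a p t)) (z : ST) :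
    ((syn a z).re : ℂ) = syn a z := by
  rw [← Complex.conj_eq_iff_re]
  unfold syn
  rw [Complex.conj_tsum, ← (Equiv.prodComm _ _).tsum_eq (fun p : M => a p z.2 * ee p z.1)]
  refine tsum_congr (fun p => ?_)
  simp [h, ee_swap]

lemma syn_periodic (a : M → ℝ → ℂ) (x : R3) (t : ℝ) (j : Fin 3) :
    syn a (x + Pi.single j 1, t) = syn a (x, t) := by
  simp [syn, ee_periodic]

/-- partial derivative in space -/
lemma syn_dx {a : M → ℝ → ℂ} (ha : AA 1 a) (x : R3) {t : ℝ} (ht : 0 ≤ t) :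
    ∃ L : R3 →L[ℝ] ℂ, HasFDerivAt (fun x => syn a (x, t)) L x ∧
      ∀ j : Fin 3, L (Pi.single j 1) = syn (dx j a) (x, t) := by
  obtain ⟨h1, a', h2, h3⟩ := ha
  have := deriv_within h1 h2 h3 (z := (x, t)) ⟨trivial, ht⟩
  have h4 : HasFDerivAt (fun x : R3 => ((x, t) : ST)) (ContinuousLinearMap.inl ℝ R3 ℝ) x :=
    hasFDerivAt_prodMk_left x t
  have h5 : ∀ y : R3, ((y, t) : ST) ∈ HS := fun y => ⟨trivial, ht⟩
  have h6 := HasFDerivWithinAt.comp_hasFDerivAt (f := fun x : R3 => ((x, t) : ST)) x this h4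
    (Eventually.of_forall h5)
  refine ⟨_, h6, ?_⟩
  intro j
  fin_cases j <;> simp [DD, px_apply, pt_apply]

/-- partial derivative in time -/
lemma syn_dt {a a' : M → ℝ → ℂ} (ha : A0 a) (ha' : A0 a')
    (h : ∀ p t, HasDerivAt (a p) (a' p t) t) (x : R3) {t : ℝ} (ht : 0 ≤ t) :
    HasDerivWithinAt (fun s => syn a (x, s)) (syn a' (x, t)) (Set.Ici 0) t := by
  have := deriv_within ha ha' h (z := (x, t)) ⟨trivial, ht⟩
  have h4 : HasDerivWithinAt (fun s : ℝ => ((x, s) : ST)) ((0, 1) : ST) (Set.Ici 0) t :=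
    ((hasDerivAt_const t x).prodMk (hasDerivAt_id t)).hasDerivWithinAt
  have h5 := this.comp_hasDerivWithinAt t h4 (fun s hs => ⟨trivial, hs⟩)
  refine HasDerivWithinAt.congr_deriv h5 ?_
  simp [DD, px_apply, pt_apply]

end Pool.Agent.H730Z.NS
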