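import Pool.Agent.H730Z.NS.Key

set_option autoImplicit false

namespace Pool.Agent.H730Z.NS

open Finset Complex

/-- the index monoid of the graded expansion -/
abbrev M := (Fin 3 → ℕ) × (Fin 3 → ℕ)

/-- lower interval -/
def box (p : M) : Finset M := Iic p.1 ×ˢ Iic p.2

lemma mem_box {p q : M} : q ∈ box p ↔ q ≤ p := by
  simp [box, Prod.le_def]

noncomputable instance instAnti : Finset.HasAntidiagonal M where
  antidiagonal p := ((box p) ×ˢ (box p)).filter (fun q => q.1 + q.2 = p)
  mem_antidiagonal := by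
    intro n a
    simp only [mem_filter, mem_product, mem_box, and_iff_right_iff_imp]
    rintro rfl
    exact ⟨le_self_add, le_add_self⟩

/-- the antidiagonal -/
noncomputable abbrev anti (p : M) : Finset (M × M) := Finset.HasAntidiagonal.antidiagonal p

lemma mem_anti {p : M} {q : M × M} : q ∈ anti p ↔ q.1 + q.2 = p :=
  Finset.HasAntidiagonal.mem_antidiagonal

/-- frequency of an index -/
noncomputable def xi (p : M) : R3 := fun i => 2 * Real.pi * ((p.1 i : ℝ) - (p.2 i : ℝ))

lemma xi_add (p q : M) : xi (p + q) = xi p + xi q := by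
  funext i; simp [xi]; ring
lemma xi_swap (p : M) : xi p.swap = -xi p := by
  funext i; simp [xi]; ring
lemma xi_zero : xi 0 = 0 := by funext i; simp [xi]

/-- the bilinear term -/
noncomputable def bil (l m : R3) (a b : V) : V := (-(I / 2)) • proj (l + m) (sym l m a b)

lemma bil_zero_left (l m : R3) (b : V) : bil l m 0 b = 0 := by
  simp [bil, sym, dotc_zero, proj]
lemma bil_zero_right (l m : R3) (a : V) : bil l m a 0 = 0 := by
  simp [bil, sym, dotc_zero, proj]

lemma continuous_dotc (m : R3) : Continuous (fun a : V => dotc a m) := by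
  unfold dotc; fun_prop

lemma continuous_bil (l m : R3) {a b : ℝ → V} (ha : Continuous a) (hb : Continuous b) :
    Continuous (fun t => bil l m (a t) (b t)) := by
  have h1 : Continuous (fun t => sym l m (a t) (b t)) :=
    (((continuous_dotc m).comp ha).smul hb).add (((continuous_dotc l).comp hb).smul ha)
  unfold bil proj
  exact (h1.sub ((((continuous_dotc _).comp h1).div_const _).smul continuous_const)).const_smul
    (-(I / 2))

lemma norm_bil (l m : R3) (a b : V) : ‖bil l m a b‖ = ‖proj (l + m) (sym l m a b)‖ / 2 := by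
  rw [bil, norm_smul]; simp; ring

lemma norm_bil_le (l m : R3) (a b : V) (ha : dotc a l = 0) (hb : dotc b m = 0) :
    ‖bil l m a b‖ ≤ nr (l + m) * (‖a‖ * ‖b‖) := by
  rw [norm_bil]
  have h1 : ‖dotc a m‖ ≤ ‖a‖ * nr (l + m) := by
    have := norm_dotc_le a (l + m)
    rwa [dotc_addr, ha, zero_add] at this
  have h2 : ‖dotc b l‖ ≤ ‖b‖ * nr (l + m) := by
    have := norm_dotc_le b (l + m)
    rwa [dotc_addr, hb, add_zero] at this
  have h3 : ‖sym l m a b‖ ≤ ‖dotc a m‖ * ‖b‖ + ‖dotc b l‖ * ‖a‖ := by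
    unfold sym
    refine (norm_add_le _ _).trans (le_of_eq ?_)
    rw [norm_smul, norm_smul]
  have h4 := norm_proj_le (l + m) (sym l m a b)
  have h5 := mul_le_mul_of_nonneg_right h1 (norm_nonneg b)
  have h6 := mul_le_mul_of_nonneg_right h2 (norm_nonneg a)
  nlinarith

lemma cj_bil (l m : R3) (a b : V) : bil (-l) (-m) (cj a) (cj b) = cj (bil l m a b) := by
  have e : sq3 (-l + -m) = sq3 (l + m) := by simp [sq3]; ring
  ext i
  simp only [bil, proj, sym, cj, ofR, dotc, e, PiLp.smul_apply, PiLp.sub_apply, PiLp.add_apply,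
    smul_eq_mul, map_mul, map_sub, map_add, map_neg, map_div₀, conj_ofReal, conj_I, Pi.add_apply,
    Pi.neg_apply, ofReal_add, ofReal_neg, map_ofNat]
  ring

/-- Duhamel formula -/
noncomputable def duh (lam : ℂ) (d : V) (F : ℝ → V) (t : ℝ) : V :=
  cexp (-lam * t) • (d + ∫ s in (0 : ℝ)..t, cexp (lam * s) • F s)

lemma duh_zero (lam : ℂ) (d : V) (F : ℝ → V) : duh lam d F 0 = d := by simp [duh]

lemma duh_deriv (lam : ℂ) (d : V) {F : ℝ → V} (hF : Continuous F) (t : ℝ) :
    HasDerivAt (duh lam d F) (-lam • duh lam d F t + F t) t := by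
  have hc : Continuous (fun s : ℝ => cexp (lam * s) • F s) := by fun_prop
  have h1 : HasDerivAt (fun t : ℝ => d + ∫ s in (0 : ℝ)..t, cexp (lam * s) • F s)
      (cexp (lam * t) • F t) t :=
    (intervalIntegral.integral_hasDerivAt_right (hc.intervalIntegrable _ _)
      (hc.stronglyMeasurableAtFilter _ _) hc.continuousAt).const_add d
  have h2 : HasDerivAt (fun t : ℝ => cexp (-lam * t)) (cexp (-lam * t) * (-lam * 1)) t :=
    (((hasDerivAt_id (t : ℂ)).const_mul (-lam)).cexp).comp_ofReal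
  have h3 := h2.smul h1
  refine h3.congr_deriv ?_
  unfold duh
  rw [smul_smul, smul_smul, ← Complex.exp_add]
  simp [add_comm, mul_comm]

lemma duh_cont (lam : ℂ) (d : V) {F : ℝ → V} (hF : Continuous F) : Continuous (duh lam d F) :=
  continuous_iff_continuousAt.2 (fun t => (duh_deriv lam d hF t).continuousAt)

lemma duh_dotc (lam : ℂ) (d : V) {F : ℝ → V} (hF : Continuous F) (m : R3) (hd : dotc d m = 0)
    (h : ∀ s, dotc (F s) m = 0) (t : ℝ) : dotc (duh lam d F t) m = 0 := by
  let L : V →L[ℂ] ℂ := (m 0 : ℂ) • EuclideanSpace.proj 0 + (m 1 : ℂ) • EuclideanSpace.proj 1 +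
    (m 2 : ℂ) • EuclideanSpace.proj 2
  have hL : ∀ a, L a = dotc a m := by
    intro a; simp [L, dotc]; ring
  have hc : Continuous (fun s : ℝ => cexp (lam * s) • F s) := by fun_prop
  rw [duh, dotc_smul, dotc_add, hd, ← hL, ← L.intervalIntegral_comp_comm (hc.intervalIntegrable _ _)]
  simp [hL, dotc_smul, h]

lemma duh_cj (lam : ℂ) (d : V) {F : ℝ → V} (hF : Continuous F) (t : ℝ) :
    duh ((starRingEnd ℂ) lam) (cj d) (fun s => cj (F s)) t = cj (duh lam d F t) := by
  have hc : Continuous (fun s : ℝ => cexp (lam * s) • F s) := by fun_prop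
  have hcj : Continuous cj := by unfold cj; fun_prop
  have hc' : Continuous (fun s : ℝ => cexp ((starRingEnd ℂ) lam * s) • cj (F s)) := by fun_prop
  ext i
  have e1 := (EuclideanSpace.proj i : V →L[ℂ] ℂ).intervalIntegral_comp_comm
    (hc.intervalIntegrable (μ := MeasureTheory.volume) 0 t)
  have e2 := (EuclideanSpace.proj i : V →L[ℂ] ℂ).intervalIntegral_comp_comm
    (hc'.intervalIntegrable (μ := MeasureTheory.volume) 0 t)
  simp only [PiLp.proj_apply, PiLp.smul_apply, smul_eq_mul] at e1 e2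
  simp only [duh, cj, PiLp.smul_apply, PiLp.add_apply, smul_eq_mul, map_mul, map_add]
  simp only [cj] at e2
  rw [← e1, ← e2, ← intervalIntegral.intervalIntegral_conj]
  simp [← Complex.exp_conj]

/-- the basic estimate -/
lemma duh_est (lam : ℂ) (d : V) {F : ℝ → V} (hF : Continuous F) (hl : 0 ≤ lam.re) {t : ℝ}
    (ht : 0 ≤ t) : ‖duh lam d F t‖ + lam.re * ∫ s in (0 : ℝ)..t, ‖duh lam d F s‖ ≤
      ‖d‖ + ∫ s in (0 : ℝ)..t, ‖F s‖ := by
  set mu := lam.re
  let m : ℝ → ℝ := fun t => Real.exp (-mu * t) * (‖d‖ + ∫ s in (0 : ℝ)..t, Real.exp (mu * s) * ‖F s‖)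
  have hc : Continuous (fun s : ℝ => Real.exp (mu * s) * ‖F s‖) := by fun_prop
  have hm : ∀ t, HasDerivAt m (-mu * m t + ‖F t‖) t := by
    intro t
    have h1 : HasDerivAt (fun t : ℝ => ‖d‖ + ∫ s in (0 : ℝ)..t, Real.exp (mu * s) * ‖F s‖)
        (Real.exp (mu * t) * ‖F t‖) t :=
      (intervalIntegral.integral_hasDerivAt_right (hc.intervalIntegrable _ _)
        (hc.stronglyMeasurableAtFilter _ _) hc.continuousAt).const_add _
    have h2 : HasDerivAt (fun t : ℝ => Real.exp (-mu * t)) (Real.exp (-mu * t) * (-mu * 1)) t :=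
      ((hasDerivAt_id t).const_mul (-mu)).exp
    have h3 := h2.mul h1
    have : Real.exp (-mu * t) * (Real.exp (mu * t) * ‖F t‖) = ‖F t‖ := by
      rw [← mul_assoc, ← Real.exp_add]; simp
    rw [this] at h3
    refine h3.congr_deriv ?_
    simp only [m]; ring
  have hmc : Continuous m := continuous_iff_continuousAt.2 (fun t => (hm t).continuousAt)
  have hle : ∀ s, 0 ≤ s → ‖duh lam d F s‖ ≤ m s := by
    intro s hs
    rw [duh, norm_smul, Complex.norm_exp]
    have : (-lam * s).re = -mu * s := by simp [mu]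
    rw [this]
    apply mul_le_mul_of_nonneg_left _ (Real.exp_pos _).le
    refine (norm_add_le _ _).trans (add_le_add le_rfl ?_)
    refine (intervalIntegral.norm_integral_le_integral_norm hs).trans (le_of_eq ?_)
    congr 1
    funext x
    rw [norm_smul, Complex.norm_exp]
    simp [mu]
  have ftc := intervalIntegral.integral_eq_sub_of_hasDerivAt (a := 0) (b := t)
    (fun s _ => hm s) (((hmc.const_mul (-mu)).add hF.norm).intervalIntegrable _ _)
  rw [intervalIntegral.integral_add ((hmc.const_mul (-mu)).intervalIntegrable _ _)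
    (hF.norm.intervalIntegrable _ _), intervalIntegral.integral_const_mul] at ftc
  have m0 : m 0 = ‖d‖ := by simp [m]
  have i1 : ∫ s in (0 : ℝ)..t, ‖duh lam d F s‖ ≤ ∫ s in (0 : ℝ)..t, m s :=
    intervalIntegral.integral_mono_on ht ((duh_cont lam d hF).norm.intervalIntegrable _ _)
      (hmc.intervalIntegrable _ _) (fun s hs => hle s hs.1)
  have i2 := mul_le_mul_of_nonneg_left i1 hl
  have i3 := hle t ht
  linarith

open Classical in
/-- the graded Picard (tree) expansion -/
noncomputable def uu (lam : M → ℂ) (d : M → V) : M → ℝ → V :=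
  (wellFounded_lt (α := M)).fix (fun p rec => duh (lam p) (d p) (fun s => ∑ q ∈ anti p,
    if h : q.1 < p ∧ q.2 < p then bil (xi q.1) (xi q.2) (rec q.1 h.1 s) (rec q.2 h.2 s) else 0))

open Classical in
lemma uu_unfold (lam : M → ℂ) (d : M → V) (p : M) : uu lam d p =
    duh (lam p) (d p) (fun s => ∑ q ∈ anti p, if q.1 < p ∧ q.2 < p then
      bil (xi q.1) (xi q.2) (uu lam d q.1 s) (uu lam d q.2 s) else 0) := by
  unfold uu
  rw [WellFounded.fix_eq]
  simp only [dite_eq_ite]

/-- nonlinear term -/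
noncomputable def FF (lam : M → ℂ) (d : M → V) (p : M) (s : ℝ) : V :=
  ∑ q ∈ anti p, bil (xi q.1) (xi q.2) (uu lam d q.1 s) (uu lam d q.2 s)

variable {lam : M → ℂ} {d : M → V}

lemma uu_bot (h0 : d 0 = 0) (t : ℝ) : uu lam d 0 t = 0 := by
  rw [uu_unfold]
  have : ∀ q : M, ¬ q < 0 := fun q => not_lt_bot
  simp [duh, h0, this]

lemma lt_or_zero {p : M} {q : M × M} (hq : q ∈ anti p) :
    (q.1 < p ∧ q.2 < p) ∨ q.1 = 0 ∨ q.2 = 0 := by
  rw [mem_anti] at hq
  by_cases h1 : q.1 = 0
  · exact Or.inr (Or.inl h1)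
  by_cases h2 : q.2 = 0
  · exact Or.inr (Or.inr h2)
  left
  subst hq
  exact ⟨lt_add_of_pos_right _ (pos_iff_ne_zero.2 h2), lt_add_of_pos_left _ (pos_iff_ne_zero.2 h1)⟩

lemma uu_eq (h0 : d 0 = 0) (p : M) : uu lam d p = duh (lam p) (d p) (FF lam d p) := by
  rw [uu_unfold]
  congr 1
  funext s
  refine sum_congr rfl (fun q hq => ?_)
  split_ifs with h
  · rfl
  · rcases lt_or_zero hq with h' | h' | h'
    · exact absurd h' h
    · rw [h', uu_bot h0, bil_zero_left]
    · rw [h', uu_bot h0, bil_zero_right]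

lemma FF_cont_of (h0 : d 0 = 0) (p : M) (ih : ∀ q < p, Continuous (uu lam d q)) :
    Continuous (FF lam d p) := by
  unfold FF
  refine continuous_finsetSum _ (fun q hq => ?_)
  rcases lt_or_zero hq with h' | h' | h'
  · exact continuous_bil _ _ (ih _ h'.1) (ih _ h'.2)
  · simp only [h', uu_bot h0, bil_zero_left]; exact continuous_const
  · simp only [h', uu_bot h0, bil_zero_right]; exact continuous_const

lemma uu_cont (h0 : d 0 = 0) (p : M) : Continuous (uu lam d p) := by
  induction p using WellFoundedLT.induction with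
  | ind p ih => rw [uu_eq h0]; exact duh_cont _ _ (FF_cont_of h0 p ih)

lemma FF_cont (h0 : d 0 = 0) (p : M) : Continuous (FF lam d p) :=
  FF_cont_of h0 p (fun q _ => uu_cont h0 q)

lemma uu_deriv (h0 : d 0 = 0) (p : M) (t : ℝ) :
    HasDerivAt (uu lam d p) (-lam p • uu lam d p t + FF lam d p t) t := by
  rw [uu_eq h0]; exact duh_deriv _ _ (FF_cont h0 p) t

lemma uu_init (h0 : d 0 = 0) (p : M) : uu lam d p 0 = d p := by
  rw [uu_eq h0, duh_zero]

lemma dotc_sum {ι : Type} (s : Finset ι) (f : ι → V) (m : R3) :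
    dotc (∑ i ∈ s, f i) m = ∑ i ∈ s, dotc (f i) m := by
  classical
  induction s using Finset.induction_on with
  | empty => simp [dotc_zero]
  | insert a s ha ih => rw [sum_insert ha, sum_insert ha, dotc_add, ih]

lemma uu_div (h0 : d 0 = 0) (hdiv : ∀ p, dotc (d p) (xi p) = 0) (p : M) (t : ℝ) :
    dotc (uu lam d p t) (xi p) = 0 := by
  rw [uu_eq h0]
  refine duh_dotc _ _ (FF_cont h0 p) _ (hdiv p) (fun s => ?_) t
  rw [FF, dotc_sum]
  refine sum_eq_zero (fun q hq => ?_)
  rw [mem_anti] at hq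
  rw [bil, dotc_smul, ← hq, xi_add, dotc_proj, mul_zero]

lemma uu_mean (hd0 : ∀ p, xi p = 0 → d p = 0) (hdiv : ∀ p, dotc (d p) (xi p) = 0) (p : M)
    (hp : xi p = 0) (t : ℝ) : uu lam d p t = 0 := by
  have h0 := hd0 0 xi_zero
  rw [uu_eq h0]
  have : FF lam d p = fun _ => 0 := by
    funext s
    refine sum_eq_zero (fun q hq => ?_)
    rw [mem_anti] at hq
    have := norm_bil_le (xi q.1) (xi q.2) _ _ (uu_div (lam := lam) h0 hdiv q.1 s)
      (uu_div (lam := lam) h0 hdiv q.2 s)
    rw [← xi_add, hq, hp] at this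
    have e : nr (0 : R3) = 0 := by simp [nr, sq3]
    rw [e, zero_mul] at this
    exact norm_le_zero_iff.1 this
  rw [this, hd0 p hp]
  simp [duh]

lemma cj_sum {ι : Type} (s : Finset ι) (f : ι → V) : cj (∑ i ∈ s, f i) = ∑ i ∈ s, cj (f i) := by
  ext j
  simp [cj]

lemma sum_anti_swap {β : Type} [AddCommMonoid β] (p : M) (f : M × M → β) :
    ∑ q ∈ anti p.swap, f q = ∑ q ∈ anti p, f (q.1.swap, q.2.swap) := by
  symm
  refine sum_bij' (fun q _ => (q.1.swap, q.2.swap)) (fun q _ => (q.1.swap, q.2.swap))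
    ?_ ?_ ?_ ?_ ?_
  · intro q hq
    rw [mem_anti] at hq ⊢
    rw [← hq]; rfl
  · intro q hq
    rw [mem_anti] at hq ⊢
    rw [← Prod.swap_swap p, ← hq]; rfl
  · intro q _; rfl
  · intro q _; rfl
  · intro q _; rfl

lemma uu_real (h0 : d 0 = 0) (hl : ∀ p, lam p.swap = (starRingEnd ℂ) (lam p))
    (hr : ∀ p, d p.swap = cj (d p)) (p : M) : ∀ t, uu lam d p.swap t = cj (uu lam d p t) := by
  induction p using WellFoundedLT.induction with
  | ind p ih =>
    intro t
    rw [uu_eq h0 p, uu_eq h0 p.swap, ← duh_cj _ _ (FF_cont h0 p), hl, hr]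
    congr 1
    funext s
    rw [FF, FF, sum_anti_swap, cj_sum]
    refine sum_congr rfl (fun q hq => ?_)
    simp only [xi_swap]
    rcases lt_or_zero hq with h' | h' | h'
    · rw [ih _ h'.1, ih _ h'.2, cj_bil]
    · have : (0 : M).swap = 0 := rfl
      rw [h', this, uu_bot h0, bil_zero_left, bil_zero_left]; ext j; simp [cj]
    · have : (0 : M).swap = 0 := rfl
      rw [h', this, uu_bot h0, bil_zero_right, bil_zero_right]; ext j; simp [cj]

lemma uu_est (h0 : d 0 = 0) (p : M) (hl : 0 ≤ (lam p).re) {t : ℝ} (ht : 0 ≤ t) :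
    ‖uu lam d p t‖ + (lam p).re * ∫ s in (0 : ℝ)..t, ‖uu lam d p s‖ ≤
      ‖d p‖ + ∫ s in (0 : ℝ)..t, ‖FF lam d p s‖ := by
  rw [uu_eq h0 p]; exact duh_est _ _ (FF_cont h0 p) hl ht

end Pool.Agent.H730Z.NS
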